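import Pool.Agent.X172.IX.SuffP

set_option autoImplicit false
open Cardinal

namespace Pool.Agent.X172.IX

universe u
variable {X : Type u}

def rel (a : X ≃. X) : X → X → Prop := fun x y => a x = some y

theorem rel_pinj (a : X ≃. X) : PInj (rel a) where
  fn := fun _ _ _ h1 h2 => Option.some.inj (h1.symm.trans h2)
  inj := fun _ _ _ h1 h2 => a.inj h1 h2

open Classical in
noncomputable def ofRel (R : X → X → Prop) (hR : PInj R) : X ≃. X where
  toFun x := if h : ∃ y, R x y then some h.choose else none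
  invFun y := if h : ∃ x, R x y then some h.choose else none
  inv := by
    intro x y
    constructor
    · intro h
      split_ifs at h with h1
      have e := Option.some.inj h
      have h2 := h1.choose_spec
      rw [e] at h2
      have h3 : ∃ y, R x y := ⟨y, h2⟩
      rw [dif_pos h3]
      exact congrArg some (hR.fn _ _ _ h3.choose_spec h2)
    · intro h
      split_ifs at h with h1
      have e := Option.some.inj h
      have h2 := h1.choose_spec
      rw [e] at h2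
      have h3 : ∃ x, R x y := ⟨x, h2⟩
      rw [dif_pos h3]
      exact congrArg some (hR.inj _ _ _ h3.choose_spec h2)

theorem ofRel_iff (R : X → X → Prop) (hR : PInj R) (x y : X) : ofRel R hR x = some y ↔ R x y := by
  classical
  have e : ofRel R hR x = if h : ∃ y, R x y then some h.choose else none := rfl
  rw [e]
  constructor
  · intro h
    split_ifs at h with h1
    have e := Option.some.inj h
    rw [← e]
    exact h1.choose_spec
  · intro h
    have h1 : ∃ y, R x y := ⟨y, h⟩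
    rw [dif_pos h1]
    exact congrArg some (hR.fn _ _ _ h1.choose_spec h)

theorem pe_ext {f g : X ≃. X} (h : ∀ x y, f x = some y ↔ g x = some y) : f = g :=
  PEquiv.ext fun x => Option.ext fun y => h x y

theorem trans_some (f g : X ≃. X) (x z : X) :
    f.trans g x = some z ↔ ∃ y, f x = some y ∧ g y = some z := PEquiv.trans_eq_some f g x z

/-- one half of `c`-conjugacy -/
theorem half_c (a b : X ≃. X) :
    (∃ g : X ≃. X, a.trans g = g.trans b ∧ ∀ x y, a x = some y → ∃ z, g y = some z) ↔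
    ∃ U : X → X → Prop, PInj U ∧ Int (rel a) (rel b) U ∧ (∀ z z', rel a z z' → ∃ w, U z w) ∧
      (∀ z z', rel a z z' → ∃ w, U z' w) := by
  constructor
  · rintro ⟨g, h1, h2⟩
    have hI : Int (rel a) (rel b) (rel g) := by
      constructor
      intro z w'
      have h3 := trans_some a g z w'
      have h4 := trans_some g b z w'
      rw [h1] at h3
      exact h3.symm.trans h4
    refine ⟨rel g, rel_pinj g, hI, fun z z' hz => ?_, fun z z' hz => h2 z z' hz⟩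
    obtain ⟨w', hw'⟩ := h2 z z' hz
    obtain ⟨w, hw, _⟩ := (hI.inter z w').1 ⟨z', hz, hw'⟩
    exact ⟨w, hw⟩
  · rintro ⟨U, hU, hI, _, h2⟩
    refine ⟨ofRel U hU, pe_ext fun z w' => ?_, fun x y hx => ?_⟩
    · rw [trans_some, trans_some]
      have := hI.inter z w'
      simp only [ofRel_iff]
      exact this
    · obtain ⟨w, hw⟩ := h2 x y hx
      exact ⟨w, (ofRel_iff _ _ _ _).2 hw⟩

theorem p_iff (a b : X ≃. X) : (∃ u v : X ≃. X, a = u.trans v ∧ b = v.trans u) ↔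
    ∃ U : X → X → Prop, PInj U ∧ Int (rel a) (rel b) U ∧ (∀ z z', rel a z z' → ∃ w, U z w) ∧
      (∀ w w', rel b w w' → ∃ z, U z w') := by
  constructor
  · rintro ⟨u, v, rfl, rfl⟩
    refine ⟨rel u, rel_pinj u, ⟨fun z w' => ?_⟩, fun z z' hz => ?_, fun w w' hw => ?_⟩
    · constructor
      · rintro ⟨z', h1, h2⟩
        obtain ⟨y, h3, h4⟩ := (trans_some u v z z').1 h1
        exact ⟨y, h3, (trans_some v u y w').2 ⟨z', h4, h2⟩⟩
      · rintro ⟨w, h1, h2⟩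
        obtain ⟨y, h3, h4⟩ := (trans_some v u w w').1 h2
        exact ⟨y, (trans_some u v z y).2 ⟨w, h1, h3⟩, h4⟩
    · obtain ⟨y, h3, _⟩ := (trans_some u v z z').1 hz
      exact ⟨y, h3⟩
    · obtain ⟨y, _, h4⟩ := (trans_some v u w w').1 hw
      exact ⟨y, h4⟩
  · rintro ⟨U, hU, hI, hdom, him⟩
    have hA := rel_pinj a
    have hB := rel_pinj b
    have hV : PInj (fun y x => (∃ z, U z y ∧ rel a z x) ∨ ∃ w, rel b y w ∧ U x w) := by
      constructor
      · intro y x x' h h'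
        rcases h with ⟨z, h1, h2⟩ | ⟨w, h1, h2⟩ <;> rcases h' with ⟨z', h3, h4⟩ | ⟨w', h3, h4⟩
        · rw [hU.inj _ _ _ h1 h3] at h2
          exact hA.fn _ _ _ h2 h4
        · obtain ⟨z'', h5, h6⟩ := (hI.inter z w').2 ⟨y, h1, h3⟩
          rw [hA.fn _ _ _ h2 h5]
          exact hU.inj _ _ _ h6 h4
        · obtain ⟨z'', h5, h6⟩ := (hI.inter z' w).2 ⟨y, h3, h1⟩
          rw [hA.fn _ _ _ h4 h5]
          exact hU.inj _ _ _ h2 h6
        · rw [hB.fn _ _ _ h1 h3] at h2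
          exact hU.inj _ _ _ h2 h4
      · intro y y' x h h'
        rcases h with ⟨z, h1, h2⟩ | ⟨w, h1, h2⟩ <;> rcases h' with ⟨z', h3, h4⟩ | ⟨w', h3, h4⟩
        · rw [hA.inj _ _ _ h2 h4] at h1
          exact hU.fn _ _ _ h1 h3
        · obtain ⟨y'', h5, h6⟩ := (hI.inter z w').1 ⟨x, h2, h4⟩
          rw [hU.fn _ _ _ h1 h5]
          exact hB.inj _ _ _ h6 h3
        · obtain ⟨y'', h5, h6⟩ := (hI.inter z' w).1 ⟨x, h4, h2⟩
          rw [hU.fn _ _ _ h3 h5]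
          exact hB.inj _ _ _ h1 h6
        · rw [hU.fn _ _ _ h2 h4] at h1
          exact hB.inj _ _ _ h1 h3
    refine ⟨ofRel U hU, ofRel _ hV, pe_ext fun z z' => ?_, pe_ext fun y w => ?_⟩
    · rw [trans_some]
      simp only [ofRel_iff]
      constructor
      · intro h
        obtain ⟨y, hy⟩ := hdom z z' h
        exact ⟨y, hy, Or.inl ⟨z, hy, h⟩⟩
      · rintro ⟨y, h1, ⟨z2, h2, h3⟩ | ⟨w, h2, h3⟩⟩
        · rw [hU.inj _ _ _ h1 h2]
          exact h3
        · obtain ⟨z'', h5, h6⟩ := (hI.inter z w).2 ⟨y, h1, h2⟩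
          rw [hU.inj _ _ _ h3 h6]
          exact h5
    · rw [trans_some]
      simp only [ofRel_iff]
      constructor
      · intro h
        obtain ⟨x, hx⟩ := him y w h
        exact ⟨x, Or.inr ⟨w, h, hx⟩, hx⟩
      · rintro ⟨x, ⟨z, h2, h3⟩ | ⟨w2, h2, h3⟩, h1⟩
        · obtain ⟨y'', h5, h6⟩ := (hI.inter z w).1 ⟨x, h3, h1⟩
          rw [hU.fn _ _ _ h2 h5]
          exact h6
        · rw [hU.fn _ _ _ h1 h3]
          exact h2

theorem NC_add {A : X → X → Prop} (hA : PInj A) {P P' Q : X → Prop}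
    (hQ : ∀ x, Q x ↔ P x ∨ P' x) (hdis : ∀ x y, P x → P' y → ¬ conn A x y) :
    NC A Q = NC A P + NC A P' := by
  unfold NC
  have e : {C : Set X | ∃ x, Q x ∧ C = comp A x} =
      {C : Set X | ∃ x, P x ∧ C = comp A x} ∪ {C : Set X | ∃ x, P' x ∧ C = comp A x} := by
    ext C
    constructor
    · rintro ⟨x, h1, h2⟩
      rcases (hQ x).1 h1 with h | h
      · exact Or.inl ⟨x, h, h2⟩
      · exact Or.inr ⟨x, h, h2⟩
    · rintro (⟨x, h1, h2⟩ | ⟨x, h1, h2⟩)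
      · exact ⟨x, (hQ x).2 (Or.inl h1), h2⟩
      · exact ⟨x, (hQ x).2 (Or.inr h1), h2⟩
  rw [e]
  apply mk_union_of_disjoint
  rw [Set.disjoint_left]
  rintro C ⟨x, h1, h2⟩ ⟨y, h3, h4⟩
  exact hdis x y h1 h3 ((comp_eq hA).1 (h2.symm.trans h4))

theorem NC_rd {A : X → X → Prop} (hA : PInj A) :
    NC A (fun x => Fw A x ∧ Ap A x ∧ (Bw A x ∨ In A x)) =
      NC A (fun x => Fw A x ∧ In A x) + NC A (fun x => Fw A x ∧ Bw A x ∧ Ap A x) := by
  refine NC_add hA (fun x => ?_) (fun x y h1 h2 h3 => ?_)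
  · constructor
    · rintro ⟨h1, h2, h3 | h3⟩
      · exact Or.inr ⟨h1, h3, h2⟩
      · exact Or.inl ⟨h1, h3⟩
    · rintro (⟨h1, h2⟩ | ⟨h1, h2, h3⟩)
      · exact ⟨h1, In_Ap h2, Or.inr h2⟩
      · exact ⟨h1, h3, Or.inl h2⟩
  · have := In_bw h1.2 (Bw_conn hA (conn_symm h3) h2.2.1 1)
    omega

theorem NC_en {A : X → X → Prop} (hA : PInj A) (n : ℕ) :
    NC A (fun x => Te A x ∧ bw A n x) =
      NC A (fun x => Te A x ∧ bw A n x ∧ ¬ Bw A x) + NC A (fun x => Te A x ∧ Bw A x) := by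
  refine NC_add hA (fun x => ?_) (fun x y h1 h2 h3 => ?_)
  · constructor
    · rintro ⟨h1, h2⟩
      by_cases h : Bw A x
      · exact Or.inr ⟨h1, h⟩
      · exact Or.inl ⟨h1, h2, h⟩
    · rintro (⟨h1, h2, _⟩ | ⟨h1, h2⟩)
      · exact ⟨h1, h2⟩
      · exact ⟨h1, h2 n⟩
  · exact h1.2.2 (Bw_conn hA (conn_symm h3) h2.2)

theorem c_main (a b : X ≃. X) :
    ((∃ g : X ≃. X, a.trans g = g.trans b ∧ ∀ x y, a x = some y → ∃ z, g y = some z) ∧
      (∃ h : X ≃. X, b.trans h = h.trans a ∧ ∀ x y, b x = some y → ∃ z, h y = some z)) ↔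
    (∀ k, 0 < k → NC (rel a) (Cy (rel a) k) = NC (rel b) (Cy (rel b) k)) ∧
    NC (rel a) (fun x => Fw (rel a) x ∧ Bw (rel a) x ∧ Ap (rel a) x) =
      NC (rel b) (fun x => Fw (rel b) x ∧ Bw (rel b) x ∧ Ap (rel b) x) ∧
    NC (rel a) (fun x => Fw (rel a) x ∧ In (rel a) x) +
        NC (rel a) (fun x => Fw (rel a) x ∧ Bw (rel a) x ∧ Ap (rel a) x) =
      NC (rel b) (fun x => Fw (rel b) x ∧ In (rel b) x) +
        NC (rel b) (fun x => Fw (rel b) x ∧ Bw (rel b) x ∧ Ap (rel b) x) ∧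
    NC (rel a) (fun x => Te (rel a) x ∧ Bw (rel a) x) =
      NC (rel b) (fun x => Te (rel b) x ∧ Bw (rel b) x) ∧
    ∀ n, 0 < n → NC (rel a) (fun x => Te (rel a) x ∧ bw (rel a) n x ∧ ¬ Bw (rel a) x) +
        NC (rel a) (fun x => Te (rel a) x ∧ Bw (rel a) x) =
      NC (rel b) (fun x => Te (rel b) x ∧ bw (rel b) n x ∧ ¬ Bw (rel b) x) +
        NC (rel b) (fun x => Te (rel b) x ∧ Bw (rel b) x) := by
  have hA := rel_pinj a
  have hB := rel_pinj b
  rw [half_c, half_c, ← NC_rd hA, ← NC_rd hB]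
  simp only [← NC_en hA, ← NC_en hB]
  constructor
  · rintro ⟨⟨U, h1, h2, h3, h4⟩, ⟨V, g1, g2, g3, g4⟩⟩
    exact ⟨fun k _ => le_antisymm (cyc_le hA hB h1 h2 h3 k) (cyc_le hB hA g1 g2 g3 k),
      le_antisymm (dbl_le hA hB h1 h2 h3) (dbl_le hB hA g1 g2 g3),
      le_antisymm (rd_le hA hB h1 h2 h3) (rd_le hB hA g1 g2 g3),
      le_antisymm (lr_le_c hA hB h1 h2 h4) (lr_le_c hB hA g1 g2 g4),
      fun n hn => le_antisymm (en_le_c hA hB h1 h2 h4 n hn) (en_le_c hB hA g1 g2 g4 n hn)⟩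
  · rintro ⟨h1, h2, h3, h4, h5⟩
    exact ⟨c_suff hA hB (fun k hk => (h1 k hk).le) h2.le h3.le h4.le (fun n hn => (h5 n hn).le),
      c_suff hB hA (fun k hk => (h1 k hk).ge) h2.ge h3.ge h4.ge (fun n hn => (h5 n hn).ge)⟩

theorem p_main (a b : X ≃. X) :
    (∃ u v : X ≃. X, a = u.trans v ∧ b = v.trans u) ↔
    (∀ k, 0 < k → NC (rel a) (Cy (rel a) k) = NC (rel b) (Cy (rel b) k)) ∧
    NC (rel a) (fun x => Fw (rel a) x ∧ Bw (rel a) x ∧ Ap (rel a) x) =
      NC (rel b) (fun x => Fw (rel b) x ∧ Bw (rel b) x ∧ Ap (rel b) x) ∧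
    NC (rel a) (fun x => Fw (rel a) x ∧ In (rel a) x) =
      NC (rel b) (fun x => Fw (rel b) x ∧ In (rel b) x) ∧
    NC (rel a) (fun x => Te (rel a) x ∧ Bw (rel a) x) =
      NC (rel b) (fun x => Te (rel b) x ∧ Bw (rel b) x) ∧
    (∀ i j, 2 ≤ i → i ≤ j →
      NC (rel a) (fun x => Te (rel a) x ∧ bw (rel a) (i - 1) x ∧ ¬ bw (rel a) j x) ≤
        NC (rel b) (fun x => Te (rel b) x ∧ bw (rel b) (i - 1 - 1) x ∧ ¬ bw (rel b) (j + 1) x)) ∧
    (∀ i j, 2 ≤ i → i ≤ j →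
      NC (rel b) (fun x => Te (rel b) x ∧ bw (rel b) (i - 1) x ∧ ¬ bw (rel b) j x) ≤
        NC (rel a) (fun x => Te (rel a) x ∧ bw (rel a) (i - 1 - 1) x ∧ ¬ bw (rel a) (j + 1) x)) := by
  have hA := rel_pinj a
  have hB := rel_pinj b
  constructor
  · intro h
    have h' : ∃ u v : X ≃. X, b = u.trans v ∧ a = v.trans u := by
      obtain ⟨u, v, h1, h2⟩ := h
      exact ⟨v, u, h2, h1⟩
    obtain ⟨U, h1, h2, h3, h4⟩ := (p_iff a b).1 h
    obtain ⟨V, g1, g2, g3, g4⟩ := (p_iff b a).1 h'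
    exact ⟨fun k _ => le_antisymm (cyc_le hA hB h1 h2 h3 k) (cyc_le hB hA g1 g2 g3 k),
      le_antisymm (dbl_le hA hB h1 h2 h3) (dbl_le hB hA g1 g2 g3),
      le_antisymm (rr_le_p hA hB h1 h2 h3 h4) (rr_le_p hB hA g1 g2 g3 g4),
      le_antisymm (lr_le_p hA hB h1 h2 h3) (lr_le_p hB hA g1 g2 g3),
      fun i j hi _ => ch_le_p hA hB h1 h2 h3 h4 i j hi,
      fun i j hi _ => ch_le_p hB hA g1 g2 g3 g4 i j hi⟩
  · rintro ⟨h1, h2, h3, h4, h5, h6⟩
    exact (p_iff a b).2 (p_suff hA hB h1 h2 h3 h4 h5 h6)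

end Pool.Agent.X172.IX
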