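import Mathlib

set_option autoImplicit false
open Cardinal Set

namespace Pool.Agent.X172.IX

universe u

/-- Distinct representatives of at most `κ` sets with at least `κ` elements. -/
theorem choice_inj {I Q : Type u} (κ : Cardinal.{u}) (hI : #I ≤ κ) (S : I → Set Q)
    (hS : ∀ i, κ ≤ #(S i)) : ∃ f : I → Q, Function.Injective f ∧ ∀ i, f i ∈ S i := by
  obtain ⟨r, hr, hord⟩ := Cardinal.exists_ord_eq I
  have key : ∀ (i : I) (g : ∀ j, r j i → Q), ∃ q, q ∈ S i ∧ ∀ j h, g j h ≠ q := by
    intro i g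
    by_contra hcon
    push Not at hcon
    have hsub : S i ⊆ Set.range (fun j : {j // r j i} => g j.1 j.2) := by
      intro q hq
      obtain ⟨j, h, e⟩ := hcon q hq
      exact ⟨⟨j, h⟩, e⟩
    have h1 : #(S i) ≤ #{j // r j i} := (mk_le_mk_of_subset hsub).trans mk_range_le
    have h2 : #{j // r j i} < #I := by
      have := Ordinal.card_typein (r := r) i
      rw [← this]
      exact Cardinal.card_typein_lt i hord
    exact absurd ((hS i).trans h1) (not_le.2 (h2.trans_le hI))
  choose F hF1 hF2 using key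
  have hwf : WellFounded r := IsWellFounded.wf
  let f : I → Q := hwf.fix F
  have hf : ∀ i, f i = F i (fun j _ => f j) := fun i => hwf.fix_eq F i
  refine ⟨f, ?_, fun i => ?_⟩
  · intro a b hab
    by_contra hne
    rcases trichotomous_of r a b with h | h | h
    · exact hF2 b (fun j _ => f j) a h (by rw [← hf b]; exact hab)
    · exact hne h
    · exact hF2 a (fun j _ => f j) b h (by rw [← hf a]; exact hab.symm)
  · rw [hf i]; exact hF1 _ _

theorem half {Q : Type u} {D : Set Q} (h : ℵ₀ ≤ #D) :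
    ∃ D1 D2 : Set Q, D1 ⊆ D ∧ D2 ⊆ D ∧ Disjoint D1 D2 ∧ #D1 = #D ∧ #D2 = #D := by
  have hinf : D.Infinite := by
    rw [← Set.infinite_coe_iff]; exact Cardinal.infinite_iff.2 h
  obtain ⟨t, v, h1, h2, h3⟩ := hinf.exists_union_disjoint_cardinal_eq_of_infinite
  have h4 : #D = #t + #v := by rw [← h1]; exact mk_union_of_disjoint h2
  have h5 : #D = #t := by
    rw [← h3] at h4
    have ht : ℵ₀ ≤ #t := by
      by_contra hlt
      push Not at hlt
      have := add_lt_aleph0 hlt hlt
      rw [← h4] at this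
      exact absurd h (not_le.2 this)
    rw [h4]; exact add_eq_self ht
  exact ⟨t, v, h1 ▸ subset_union_left, h1 ▸ subset_union_right, h2, h5.symm, by rw [h5, h3]⟩

/-- removing a smaller set from an infinite set -/
theorem diff_big {Q : Type u} {D E : Set Q} (h : ℵ₀ ≤ #D) (hE : #E < #D) : #D ≤ #(D \ E : Set Q) := by
  by_contra hlt
  push Not at hlt
  have h1 : #D ≤ #(D \ E : Set Q) + #E := by
    refine (mk_le_mk_of_subset (?_ : D ⊆ (D \ E) ∪ E)).trans (mk_union_le _ _)
    intro x hx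
    by_cases hxE : x ∈ E
    · exact Or.inr hxE
    · exact Or.inl ⟨hx, hxE⟩
  exact absurd h1 (not_le.2 (add_lt_of_lt h hlt hE))

section lemC
variable {P Q : Type u} (p : ℕ → Set P) (q : ℕ → Set Q)

def Good (n : ℕ) : Prop := ∃ f : P → Q, Set.InjOn f (p n) ∧
  (∀ x ∈ p n, ∀ m, x ∈ p m → f x ∈ q m) ∧ (ℵ₀ ≤ #(q n) → #(q n) ≤ #(q n \ f '' p n : Set Q))

theorem good_step (hp : Antitone p) (hq : Antitone q) (h : ∀ n, #(p n) ≤ #(q n)) (n : ℕ)
    (hg : Good p q (n + 1)) : Good p q n := by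
  classical
  obtain ⟨f, hf1, hf2, hf3⟩ := hg
  -- the new elements
  set L : Set P := p n \ p (n + 1) with hL
  have hpn : p n = L ∪ p (n + 1) := by
    rw [hL, Set.diff_union_self, Set.union_eq_left.2 (hp (Nat.le_succ n))]
  have hdis : Disjoint L (p (n + 1)) := Set.disjoint_sdiff_left
  have himg : f '' p (n + 1) ⊆ q n := by
    rintro _ ⟨x, hx, rfl⟩
    exact hq (Nat.le_succ n) (hf2 x hx (n + 1) hx)
  set D : Set Q := q n \ f '' p (n + 1) with hD
  -- find an embedding of `L` into `D` with large complement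
  have main : ∃ D1 : Set Q, D1 ⊆ D ∧ #L ≤ #D1 ∧ (ℵ₀ ≤ #(q n) → #(q n) ≤ #(D \ D1 : Set Q)) := by
    by_cases hfin : #(q n) < ℵ₀
    · refine ⟨D, subset_rfl, ?_, fun h => absurd hfin (not_lt.2 h)⟩
      have e1 : #(p n) = #L + #(p (n + 1)) := by rw [hpn]; exact mk_union_of_disjoint hdis
      have e2 : #(q n) = #D + #(f '' p (n + 1)) := by
        have : q n = D ∪ f '' p (n + 1) := by
          rw [hD, Set.diff_union_self, Set.union_eq_left.2 himg]
        conv_lhs => rw [this]
        exact mk_union_of_disjoint Set.disjoint_sdiff_left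
      have e3 : #(f '' p (n + 1)) = #(p (n + 1)) := mk_image_eq_of_injOn f _ hf1
      have h4 := h n
      rw [e1, e2, e3] at h4
      have hlt : #(p (n + 1)) < ℵ₀ := by
        rw [← e3]; exact (mk_le_mk_of_subset himg).trans_lt hfin
      exact (add_le_add_iff_of_lt_aleph0 hlt).1 h4
    · push Not at hfin
      have hDbig : #(q n) ≤ #D := by
        by_cases hlt : #(q (n + 1)) < #(q n)
        · exact diff_big hfin ((mk_le_mk_of_subset (by
            rintro _ ⟨x, hx, rfl⟩
            exact hf2 x hx (n + 1) hx)).trans_lt hlt)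
        · push Not at hlt
          have heq : #(q (n + 1)) = #(q n) :=
            le_antisymm (mk_le_mk_of_subset (hq (Nat.le_succ n))) hlt
          have := hf3 (by rw [heq]; exact hfin)
          rw [heq] at this
          refine this.trans (mk_le_mk_of_subset ?_)
          intro x hx
          exact ⟨hq (Nat.le_succ n) hx.1, hx.2⟩
      have hDinf : ℵ₀ ≤ #D := hfin.trans hDbig
      obtain ⟨D1, D2, hs1, hs2, hd, hc1, hc2⟩ := half hDinf
      refine ⟨D1, hs1, ?_, fun _ => ?_⟩
      · rw [hc1]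
        exact (mk_le_mk_of_subset Set.diff_subset).trans ((h n).trans hDbig)
      · refine hDbig.trans (hc2 ▸ mk_le_mk_of_subset ?_)
        intro x hx
        exact ⟨hs2 hx, fun hx1 => hd.le_bot ⟨hx1, hx⟩⟩
  obtain ⟨D1, hD1, hcard, hcompl⟩ := main
  obtain ⟨g⟩ := hcard
  let f' : P → Q := fun x => if hx : x ∈ L then (g ⟨x, hx⟩).1 else f x
  have hf'L : ∀ x (hx : x ∈ L), f' x = (g ⟨x, hx⟩).1 := fun x hx => dif_pos hx
  have hf'N : ∀ x, x ∉ L → f' x = f x := fun x hx => dif_neg hx
  have hnotL : ∀ x ∈ p (n + 1), x ∉ L := fun x hx hxL => hxL.2 hx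
  refine ⟨f', ?_, ?_, ?_⟩
  · intro x hx y hy hxy
    by_cases hxL : x ∈ L <;> by_cases hyL : y ∈ L
    · rw [hf'L x hxL, hf'L y hyL] at hxy
      have := g.injective (Subtype.ext hxy)
      exact congrArg Subtype.val this
    · have hy' : y ∈ p (n + 1) := by
        by_contra hc
        exact hyL ⟨hy, hc⟩
      rw [hf'L x hxL, hf'N y hyL] at hxy
      exact absurd ⟨y, hy', hxy.symm⟩ (hD1 (g ⟨x, hxL⟩).2).2
    · have hx' : x ∈ p (n + 1) := by
        by_contra hc
        exact hxL ⟨hx, hc⟩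
      rw [hf'L y hyL, hf'N x hxL] at hxy
      exact absurd ⟨x, hx', hxy⟩ (hD1 (g ⟨y, hyL⟩).2).2
    · have hx' : x ∈ p (n + 1) := by
        by_contra hc
        exact hxL ⟨hx, hc⟩
      have hy' : y ∈ p (n + 1) := by
        by_contra hc
        exact hyL ⟨hy, hc⟩
      rw [hf'N x hxL, hf'N y hyL] at hxy
      exact hf1 hx' hy' hxy
  · intro x hx m hm
    by_cases hxL : x ∈ L
    · rw [hf'L x hxL]
      have hmn : m ≤ n := by
        by_contra hc
        push Not at hc
        exact hxL.2 (hp hc hm)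
      exact hq hmn (hD1 (g ⟨x, hxL⟩).2).1
    · have hx' : x ∈ p (n + 1) := by
        by_contra hc
        exact hxL ⟨hx, hc⟩
      rw [hf'N x hxL]
      exact hf2 x hx' m hm
  · intro hinf
    refine (hcompl hinf).trans (mk_le_mk_of_subset ?_)
    rintro y ⟨hyD, hy1⟩
    refine ⟨hyD.1, ?_⟩
    rintro ⟨x, hx, hxy⟩
    by_cases hxL : x ∈ L
    · rw [hf'L x hxL] at hxy
      exact hy1 (hxy ▸ (g ⟨x, hxL⟩).2)
    · have hx' : x ∈ p (n + 1) := by
        by_contra hc
        exact hxL ⟨hx, hc⟩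
      rw [hf'N x hxL] at hxy
      exact hyD.2 ⟨x, hx', hxy⟩

end lemC

end Pool.Agent.X172.IX
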