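import Pool.Agent.X172.IX.Card

set_option autoImplicit false
open Cardinal Set

namespace Pool.Agent.X172.IX

universe u
variable {P Q : Type u} (p : ℕ → Set P) (q : ℕ → Set Q)

theorem good_base_fin [Nonempty Q] (hq : Antitone q) (h : ∀ n, #(p n) ≤ #(q n)) (N : ℕ)
    (hN : ∀ n, N ≤ n → #(q n) = #(q N)) (hfin : #(q N) < ℵ₀) : Good p q N := by
  classical
  have hall : ∀ n, q N ⊆ q n := by
    intro n
    rcases le_total n N with hn | hn
    · exact hq hn
    · have h1 : q n ⊆ q N := hq hn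
      have hf : (q N).Finite := Cardinal.lt_aleph0_iff_set_finite.1 hfin
      have : q n = q N := by
        refine Set.Finite.eq_of_subset_of_encard_le (hf.subset h1) h1 ?_
        have e := hN n hn
        have hfn : (q n).Finite := hf.subset h1
        have e1 := Set.cast_ncard hf
        have e2 := Set.cast_ncard hfn
        rw [← e1, ← e2] at e
        have e3 : (q n).ncard = (q N).ncard := by exact_mod_cast e
        rw [← hf.cast_ncard_eq, ← hfn.cast_ncard_eq, e3]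
      rw [this]
  obtain ⟨g⟩ := h N
  let f : P → Q := fun x => if hx : x ∈ p N then (g ⟨x, hx⟩).1 else Classical.arbitrary Q
  have hf : ∀ x (hx : x ∈ p N), f x = (g ⟨x, hx⟩).1 := fun x hx => dif_pos hx
  refine ⟨f, ?_, ?_, fun hc => absurd hfin (not_lt.2 hc)⟩
  · intro x hx y hy hxy
    rw [hf x hx, hf y hy] at hxy
    exact congrArg Subtype.val (g.injective (Subtype.ext hxy))
  · intro x hx m _
    rw [hf x hx]
    exact hall m (g ⟨x, hx⟩).2

theorem good_base_inf [Nonempty Q] (hp : Antitone p) (hq : Antitone q)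
    (h : ∀ n, #(p n) ≤ #(q n)) (hi : #(⋂ n, p n : Set P) ≤ #(⋂ n, q n : Set Q)) (N : ℕ)
    (hN : ∀ n, N ≤ n → #(q n) = #(q N)) (hinf : ℵ₀ ≤ #(q N)) : Good p q N := by
  classical
  set Pi : Set P := ⋂ n, p n with hPi
  set Qi : Set Q := ⋂ n, q n with hQi
  set κ := #(q N) with hκ
  -- embed the elements of infinite rank
  have step1 : ∃ E : Set Q, E ⊆ Qi ∧ #Pi ≤ #E ∧ ∀ n, N ≤ n → κ ≤ #(q n \ E : Set Q) := by
    by_cases hc : #Qi < κ
    · refine ⟨Qi, subset_rfl, hi, fun n hn => ?_⟩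
      rw [← hN n hn]
      exact diff_big (by rw [hN n hn]; exact hinf) (by rw [hN n hn]; exact hc)
    · push Not at hc
      obtain ⟨D1, D2, hs1, hs2, hd, hc1, hc2⟩ := half (hinf.trans hc)
      refine ⟨D1, hs1, by rw [hc1]; exact hi, fun n _ => ?_⟩
      refine hc.trans (hc2 ▸ mk_le_mk_of_subset ?_)
      intro x hx
      refine ⟨?_, fun hx1 => hd.le_bot ⟨hx1, hx⟩⟩
      have := hs2 hx
      rw [hQi, Set.mem_iInter] at this
      exact this n
  obtain ⟨E, hEQ, hcard, hE⟩ := step1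
  obtain ⟨g⟩ := hcard
  -- the largest index
  have hlast : ∀ x : (p N \ Pi : Set P), ∃ m, N ≤ m ∧ x.1 ∈ p m ∧ ∀ k, x.1 ∈ p k → k ≤ m := by
    intro x
    have hx : ∃ n, x.1 ∉ p n := by
      by_contra hc
      push Not at hc
      exact x.2.2 (Set.mem_iInter.2 hc)
    obtain ⟨k0, hk0⟩ := hx
    have hbd : ∀ k, x.1 ∈ p k → k ≤ k0 := by
      intro k hk
      by_contra hc
      push Not at hc
      exact hk0 (hp hc.le hk)
    refine ⟨Nat.findGreatest (fun k => x.1 ∈ p k) k0, ?_, ?_, ?_⟩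
    · exact Nat.le_findGreatest (hbd N x.2.1) x.2.1
    · exact Nat.findGreatest_spec (P := fun k => x.1 ∈ p k) (hbd N x.2.1) x.2.1
    · intro k hk
      exact Nat.le_findGreatest (hbd k hk) hk
  choose m hm1 hm2 hm3 using hlast
  let S : (p N \ Pi : Set P) ⊕ (q N) → Set Q := Sum.elim (fun x => q (m x) \ E) (fun _ => q N \ E)
  have hS : ∀ i, κ ≤ #(S i) := by
    rintro (x | y)
    · exact hE _ (hm1 x)
    · exact hE N le_rfl
  have hI : #((p N \ Pi : Set P) ⊕ (q N)) ≤ κ := by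
    rw [mk_sum, lift_id, lift_id]
    refine (add_le_add ((mk_le_mk_of_subset Set.sdiff_subset).trans (h N)) le_rfl).trans ?_
    exact (add_eq_self hinf).le
  obtain ⟨F, hF1, hF2⟩ := choice_inj κ hI S hS
  let f : P → Q := fun x => if hx : x ∈ Pi then (g ⟨x, hx⟩).1 else
    if hx' : x ∈ p N \ Pi then F (Sum.inl ⟨x, hx'⟩) else Classical.arbitrary Q
  have hf1 : ∀ x (hx : x ∈ Pi), f x = (g ⟨x, hx⟩).1 := fun x hx => dif_pos hx
  have hf2 : ∀ x (hx : x ∈ p N \ Pi), f x = F (Sum.inl ⟨x, hx⟩) := by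
    intro x hx
    simp only [f]
    rw [dif_neg hx.2, dif_pos hx]
  refine ⟨f, ?_, ?_, ?_⟩
  · intro x hx y hy hxy
    by_cases hxi : x ∈ Pi <;> by_cases hyi : y ∈ Pi
    · rw [hf1 x hxi, hf1 y hyi] at hxy
      exact congrArg Subtype.val (g.injective (Subtype.ext hxy))
    · rw [hf1 x hxi, hf2 y ⟨hy, hyi⟩] at hxy
      have := (hF2 (Sum.inl ⟨y, hy, hyi⟩)).2
      exact absurd (hxy ▸ (g ⟨x, hxi⟩).2) this
    · rw [hf1 y hyi, hf2 x ⟨hx, hxi⟩] at hxy
      have := (hF2 (Sum.inl ⟨x, hx, hxi⟩)).2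
      exact absurd (hxy ▸ (g ⟨y, hyi⟩).2) this
    · rw [hf2 x ⟨hx, hxi⟩, hf2 y ⟨hy, hyi⟩] at hxy
      have := hF1 hxy
      simpa using this
  · intro x hx k hk
    by_cases hxi : x ∈ Pi
    · rw [hf1 x hxi]
      have := hEQ (g ⟨x, hxi⟩).2
      rw [hQi, Set.mem_iInter] at this
      exact this k
    · rw [hf2 x ⟨hx, hxi⟩]
      exact hq (hm3 ⟨x, hx, hxi⟩ k hk) (hF2 (Sum.inl ⟨x, hx, hxi⟩)).1
  · intro _
    have h1 : #(Set.range fun y : (q N) => F (Sum.inr y)) = κ :=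
      mk_range_eq _ (fun a b hab => by simpa using hF1 hab)
    refine h1.symm.le.trans (mk_le_mk_of_subset ?_)
    rintro _ ⟨y, rfl⟩
    refine ⟨(hF2 (Sum.inr y)).1, ?_⟩
    rintro ⟨x, hx, hxy⟩
    by_cases hxi : x ∈ Pi
    · rw [hf1 x hxi] at hxy
      have h2 : ((g ⟨x, hxi⟩).1 : Q) = F (Sum.inr y) := hxy
      exact (hF2 (Sum.inr y)).2 (h2 ▸ (g ⟨x, hxi⟩).2)
    · rw [hf2 x ⟨hx, hxi⟩] at hxy
      have h2 : F (Sum.inl ⟨x, hx, hxi⟩) = F (Sum.inr y) := hxy
      have := hF1 h2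
      simp at this

/-- Injection respecting two decreasing sequences of sets. -/
theorem rank_inj (hp : Antitone p) (hq : Antitone q) (hp0 : p 0 = Set.univ)
    (h : ∀ n, #(p n) ≤ #(q n)) (hi : #(⋂ n, p n : Set P) ≤ #(⋂ n, q n : Set Q)) :
    ∃ f : P → Q, Function.Injective f ∧ ∀ x n, x ∈ p n → f x ∈ q n := by
  classical
  rcases isEmpty_or_nonempty Q with hQ | hQ
  · have hP : IsEmpty P := by
      constructor
      intro x
      have h0 := h 0
      have : #(q 0) = 0 := by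
        rw [Cardinal.mk_eq_zero_iff]
        exact ⟨fun y => hQ.elim y.1⟩
      rw [this] at h0
      have h1 : #(p 0) = 0 := le_antisymm h0 zero_le
      rw [Cardinal.mk_eq_zero_iff] at h1
      exact h1.elim ⟨x, hp0 ▸ mem_univ x⟩
    exact ⟨fun x => hP.elim x, fun x => hP.elim x, fun x => hP.elim x⟩
  · obtain ⟨N, hN⟩ : ∃ N, ∀ n, N ≤ n → #(q n) = #(q N) := by
      obtain ⟨c, ⟨N, hN⟩, hc⟩ := WellFounded.has_min Cardinal.lt_wf (Set.range fun n => #(q n))
        ⟨_, 0, rfl⟩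
      refine ⟨N, fun n hn => le_antisymm (mk_le_mk_of_subset (hq hn)) ?_⟩
      have := hc _ ⟨n, rfl⟩
      rw [← hN] at this
      exact not_lt.1 this
    have hbase : Good p q N := by
      by_cases hfin : #(q N) < ℵ₀
      · exact good_base_fin p q hq h N hN hfin
      · exact good_base_inf p q hp hq h hi N hN (not_lt.1 hfin)
    have hall : ∀ k, k ≤ N → Good p q (N - k) := by
      intro k
      induction k with
      | zero => intro _; simpa using hbase
      | succ k ih =>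
        intro hk
        have h1 := ih (by omega)
        have h2 : N - k = (N - (k + 1)) + 1 := by omega
        rw [h2] at h1
        exact good_step p q hp hq h _ h1
    have h0 := hall N le_rfl
    rw [Nat.sub_self] at h0
    obtain ⟨f, hf1, hf2, _⟩ := h0
    refine ⟨f, ?_, fun x n hx => hf2 x (hp0 ▸ mem_univ x) n hx⟩
    intro x y hxy
    exact hf1 (hp0 ▸ mem_univ x) (hp0 ▸ mem_univ y) hxy

end Pool.Agent.X172.IX
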