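import Pool.Agent.X172.IX.Card

set_option autoImplicit false
open Cardinal Set

namespace Pool.Agent.X172.IX

universe u

section MD
variable {P Q : Type u}

inductive SS (A : Set P) (B : Set Q) (f : P → Q) (h : Q → P) : P → Prop
  | base (x : P) : x ∈ A → (∀ y ∈ B, h y ≠ x) → SS A B f h x
  | step (x : P) : SS A B f h x → f x ∈ B → h (f x) ∈ A → SS A B f h (h (f x))

theorem SS.memA {A : Set P} {B : Set Q} {f : P → Q} {h : Q → P} {x : P} (hx : SS A B f h x) :
    x ∈ A := by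
  cases hx with
  | base _ h1 _ => exact h1
  | step _ _ _ h2 => exact h2

/-- The infinite Mendelsohn–Dulmage theorem. -/
theorem mendelsohn_dulmage (E : P → Q → Prop) (A : Set P) (B : Set Q) (f : P → Q) (h : Q → P)
    (hf : Set.InjOn f A) (hfE : ∀ x ∈ A, E x (f x)) (hh : Set.InjOn h B)
    (hhE : ∀ y ∈ B, E (h y) y) :
    ∃ m : P → Q → Prop, (∀ x y, m x y → E x y) ∧ (∀ x y y', m x y → m x y' → y = y') ∧
      (∀ x x' y, m x y → m x' y → x = x') ∧ (∀ x ∈ A, ∃ y, m x y) ∧ ∀ y ∈ B, ∃ x, m x y := by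
  classical
  refine ⟨fun x y => (SS A B f h x ∧ f x = y) ∨
    (¬ SS A B f h x ∧ y ∈ B ∧ h y = x ∧ ∀ s, SS A B f h s → f s ≠ y), ?_, ?_, ?_, ?_, ?_⟩
  · rintro x y (⟨h1, rfl⟩ | ⟨_, h2, rfl, _⟩)
    · exact hfE x h1.memA
    · exact hhE y h2
  · rintro x y y' (⟨h1, rfl⟩ | ⟨h1, h2, h3, _⟩) (⟨h1', h4⟩ | ⟨h1', h2', h3', _⟩)
    · exact h4
    · exact absurd h1 h1'
    · exact absurd h1' h1
    · exact hh h2 h2' (h3.trans h3'.symm)
  · rintro x x' y (⟨h1, h3⟩ | ⟨h1, h2, h3, h4⟩) (⟨h1', h3'⟩ | ⟨h1', h2', h3', h4'⟩)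
    · exact hf h1.memA h1'.memA (h3.trans h3'.symm)
    · exact absurd h3 (h4' x h1)
    · exact absurd h3' (h4 x' h1')
    · exact h3.symm.trans h3'
  · intro x hx
    by_cases hS : SS A B f h x
    · exact ⟨f x, Or.inl ⟨hS, rfl⟩⟩
    · have : ∃ y ∈ B, h y = x := by
        by_contra hc
        push Not at hc
        exact hS (SS.base x hx hc)
      obtain ⟨y, hy, hyx⟩ := this
      refine ⟨y, Or.inr ⟨hS, hy, hyx, ?_⟩⟩
      rintro s hs rfl
      exact hS (hyx ▸ SS.step s hs hy (hyx ▸ hx))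
  · intro y hy
    by_cases hc : ∃ s, SS A B f h s ∧ f s = y
    · obtain ⟨s, hs, hsy⟩ := hc
      exact ⟨s, Or.inl ⟨hs, hsy⟩⟩
    · push Not at hc
      refine ⟨h y, Or.inr ⟨?_, hy, rfl, fun s hs => hc s hs⟩⟩
      intro hS
      generalize hz : h y = z at hS
      cases hS with
      | base _ _ h2 => exact h2 y hy hz
      | step x h1 h2 h3 =>
        have := hh hy h2 hz
        exact hc x h1 this.symm

end MD

section Hall
variable {P Q : Type u} (r : P → ℕ) (s : Q → ℕ)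

theorem interval_to_finset
    (H : ∀ i j, 1 ≤ i → i ≤ j → #{x | i ≤ r x ∧ r x ≤ j} ≤ #{y | i - 1 ≤ s y ∧ s y ≤ j + 1}) :
    ∀ (c : ℕ) (N : Finset ℕ), N.card = c → (∀ n ∈ N, 1 ≤ n) →
      #{x | r x ∈ N} ≤ #{y | ∃ n ∈ N, n - 1 ≤ s y ∧ s y ≤ n + 1} := by
  intro c
  induction c using Nat.strong_induction_on with
  | _ c ih =>
    intro N hc hpos
    rcases N.eq_empty_or_nonempty with rfl | hne
    · have : {x : P | r x ∈ (∅ : Finset ℕ)} = ∅ := by ext; simp
      rw [this]; simp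
    · classical
      set j := N.max' hne with hj
      have hjN : j ∈ N := N.max'_mem hne
      have hjmax : ∀ n ∈ N, n ≤ j := fun n hn => N.le_max' n hn
      let Pr : ℕ → Prop := fun i => i ∈ N ∧ ∀ k, i - 1 ≤ k → k ≤ j + 1 → ∃ n ∈ N, n - 1 ≤ k ∧ k ≤ n + 1
      have hex : ∃ i, Pr i := ⟨j, hjN, fun k h1 h2 => ⟨j, hjN, h1, h2⟩⟩
      set i := Nat.find hex with hi
      obtain ⟨hiN, hicov⟩ := Nat.find_spec hex
      have himin : ∀ m, Pr m → i ≤ m := fun m hm => Nat.find_min' hex hm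
      have hi1 : 1 ≤ i := hpos i hiN
      have hij : i ≤ j := hjmax i hiN
      set N0 := N.filter (fun n => n < i) with hN0
      have hlt : N0.card < c := by
        rw [← hc]
        apply Finset.card_lt_card
        rw [hN0, Finset.filter_ssubset]
        exact ⟨i, hiN, lt_irrefl i⟩
      have ih0 := ih _ hlt N0 rfl (fun n hn => hpos n (Finset.mem_filter.1 hn).1)
      have hsub : {x | r x ∈ N} ⊆ {x | r x ∈ N0} ∪ {x | i ≤ r x ∧ r x ≤ j} := by
        intro x hx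
        by_cases h1 : r x < i
        · exact Or.inl (Finset.mem_filter.2 ⟨hx, h1⟩)
        · exact Or.inr ⟨not_lt.1 h1, hjmax _ hx⟩
      refine (mk_le_mk_of_subset hsub).trans ((mk_union_le _ _).trans ?_)
      refine (add_le_add ih0 (H i j hi1 hij)).trans ?_
      have hdisj : Disjoint {y | ∃ n ∈ N0, n - 1 ≤ s y ∧ s y ≤ n + 1} {y | i - 1 ≤ s y ∧ s y ≤ j + 1} := by
        rw [Set.disjoint_left]
        rintro y ⟨n, hn, hn1, hn2⟩ ⟨hy1, hy2⟩
        have hnN := (Finset.mem_filter.1 hn).1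
        have hni := (Finset.mem_filter.1 hn).2
        have hPn : Pr n := by
          refine ⟨hnN, fun k h1 h2 => ?_⟩
          by_cases hk : k ≤ n + 1
          · exact ⟨n, hnN, h1, hk⟩
          · exact hicov k (by omega) h2
        exact absurd (himin n hPn) (not_le.2 hni)
      rw [← mk_union_of_disjoint hdisj]
      refine mk_le_mk_of_subset ?_
      rintro y (⟨n, hn, h1, h2⟩ | ⟨h1, h2⟩)
      · exact ⟨n, (Finset.mem_filter.1 hn).1, h1, h2⟩
      · exact hicov _ h1 h2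

theorem hall_side
    (H : ∀ i j, 1 ≤ i → i ≤ j → #{x | i ≤ r x ∧ r x ≤ j} ≤ #{y | i - 1 ≤ s y ∧ s y ≤ j + 1}) :
    ∃ f : P → Option Q, (∀ x, 1 ≤ r x → ∃ y, f x = some y ∧ r x - 1 ≤ s y ∧ s y ≤ r x + 1) ∧
      ∀ x x' y, f x = some y → f x' = some y → x = x' := by
  classical
  let b : ℕ → Cardinal.{u} := fun k => #{y | s y = k}
  let Inf : ℕ → Prop := fun n => ∃ k, n - 1 ≤ k ∧ k ≤ n + 1 ∧ ℵ₀ ≤ b k
  -- choice of an infinite class
  have hkk : ∀ n, ∃ k, 1 ≤ n → Inf n → n - 1 ≤ k ∧ k ≤ n + 1 ∧ ℵ₀ ≤ b k ∧ #{x | r x = n} ≤ b k := by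
    intro n
    by_cases hn : 1 ≤ n ∧ Inf n
    · obtain ⟨hn1, k0, hk1, hk2, hk3⟩ := hn
      obtain ⟨k, hk, hmax⟩ := Finset.exists_max_image (Finset.Icc (n - 1) (n + 1)) b
        ⟨n, Finset.mem_Icc.2 ⟨by omega, by omega⟩⟩
      rw [Finset.mem_Icc] at hk
      have hkinf : ℵ₀ ≤ b k := hk3.trans (hmax k0 (Finset.mem_Icc.2 ⟨hk1, hk2⟩))
      refine ⟨k, fun _ _ => ⟨hk.1, hk.2, hkinf, ?_⟩⟩
      have h1 : {x | r x = n} ⊆ {x | n ≤ r x ∧ r x ≤ n} := fun x hx => ⟨le_of_eq hx.symm, le_of_eq hx⟩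
      refine (mk_le_mk_of_subset h1).trans ((H n n hn1 le_rfl).trans ?_)
      have h2 : {y | n - 1 ≤ s y ∧ s y ≤ n + 1} ⊆ ({y | s y = n - 1} ∪ {y | s y = n}) ∪ {y | s y = n + 1} := by
        rintro y ⟨hy1, hy2⟩
        have : s y = n - 1 ∨ s y = n ∨ s y = n + 1 := by omega
        rcases this with h | h | h
        · exact Or.inl (Or.inl h)
        · exact Or.inl (Or.inr h)
        · exact Or.inr h
      refine (mk_le_mk_of_subset h2).trans ((mk_union_le _ _).trans ?_)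
      have e1 : #({y | s y = n - 1} ∪ {y | s y = n} : Set Q) ≤ b k := by
        refine (mk_union_le _ _).trans ((add_le_add (hmax (n - 1) ?_) (hmax n ?_)).trans ?_)
        · exact Finset.mem_Icc.2 ⟨by omega, by omega⟩
        · exact Finset.mem_Icc.2 ⟨by omega, by omega⟩
        · exact (add_eq_self hkinf).le
      refine (add_le_add e1 (hmax (n + 1) (Finset.mem_Icc.2 ⟨by omega, by omega⟩))).trans ?_
      exact (add_eq_self hkinf).le
    · exact ⟨0, fun h1 h2 => absurd ⟨h1, h2⟩ hn⟩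
  choose kk hkk using hkk
  -- the elements sent to class `k`
  let XK : ℕ → Set P := fun k => {x | 1 ≤ r x ∧ Inf (r x) ∧ kk (r x) = k}
  have hXK : ∀ k, #(XK k) ≤ b k := by
    intro k
    by_cases hne : (XK k).Nonempty
    · obtain ⟨x0, hx1, hx2, hx3⟩ := hne
      have hkinf : ℵ₀ ≤ b k := by
        have := (hkk _ hx1 hx2).2.2.1
        rwa [hx3] at this
      have hpiece : ∀ n, #({x | r x = n} ∩ XK k : Set P) ≤ b k := by
        intro n
        by_cases hne' : ({x | r x = n} ∩ XK k).Nonempty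
        · obtain ⟨x, hxn, h1, h2, h3⟩ := hne'
          have hxn' : r x = n := hxn
          have h4 := (hkk _ h1 h2).2.2.2
          rw [h3, hxn'] at h4
          exact (mk_le_mk_of_subset Set.inter_subset_left).trans h4
        · rw [Set.not_nonempty_iff_eq_empty.1 hne']; simp
      have hcov : XK k ⊆ (({x | r x = k - 1} ∩ XK k) ∪ ({x | r x = k} ∩ XK k)) ∪ ({x | r x = k + 1} ∩ XK k) := by
        intro x hx
        obtain ⟨h1, h2, h3⟩ := hx
        have h4 := hkk _ h1 h2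
        rw [h3] at h4
        have : r x = k - 1 ∨ r x = k ∨ r x = k + 1 := by omega
        rcases this with h | h | h
        · exact Or.inl (Or.inl ⟨h, h1, h2, h3⟩)
        · exact Or.inl (Or.inr ⟨h, h1, h2, h3⟩)
        · exact Or.inr ⟨h, h1, h2, h3⟩
      refine (mk_le_mk_of_subset hcov).trans ((mk_union_le _ _).trans ?_)
      refine (add_le_add ((mk_union_le _ _).trans ((add_le_add (hpiece _) (hpiece _)).trans
        (add_eq_self hkinf).le)) (hpiece _)).trans (add_eq_self hkinf).le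
    · rw [Set.not_nonempty_iff_eq_empty.1 hne]; simp
  have hemb : ∀ k, Nonempty (XK k ↪ {y | s y = k}) := fun k => hXK k
  let e : ∀ k, XK k ↪ {y | s y = k} := fun k => (hemb k).some
  -- the finite part
  let PF : Set P := {x | 1 ≤ r x ∧ ¬ Inf (r x)}
  have hfin : ∀ x : PF, {y | r x.1 - 1 ≤ s y ∧ s y ≤ r x.1 + 1}.Finite := by
    intro x
    have hb : ∀ k, r x.1 - 1 ≤ k → k ≤ r x.1 + 1 → {y | s y = k}.Finite := by
      intro k h1 h2
      have : ¬ ℵ₀ ≤ b k := fun hc => x.2.2 ⟨k, h1, h2, hc⟩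
      exact Cardinal.lt_aleph0_iff_set_finite.1 (not_le.1 this)
    have h2 : {y | r x.1 - 1 ≤ s y ∧ s y ≤ r x.1 + 1} ⊆
        ({y | s y = r x.1 - 1} ∪ {y | s y = r x.1}) ∪ {y | s y = r x.1 + 1} := by
      rintro y ⟨hy1, hy2⟩
      have : s y = r x.1 - 1 ∨ s y = r x.1 ∨ s y = r x.1 + 1 := by omega
      rcases this with h | h | h
      · exact Or.inl (Or.inl h)
      · exact Or.inl (Or.inr h)
      · exact Or.inr h
    exact (((hb _ le_rfl (by omega)).union (hb _ (by omega) (by omega))).union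
      (hb _ (by omega) le_rfl)).subset h2
  let t : PF → Finset Q := fun x => (hfin x).toFinset
  have hHall : ∀ S : Finset PF, S.card ≤ (S.biUnion t).card := by
    intro S
    set N : Finset ℕ := S.image (fun x => r x.1) with hN
    have h1 := interval_to_finset r s H N.card N rfl (by
      intro n hn
      obtain ⟨x, hx, rfl⟩ := Finset.mem_image.1 hn
      exact x.2.1)
    have h2 : #(S : Set PF) ≤ #{x | r x ∈ N} := by
      refine mk_le_of_injective (f := fun x : (S : Set PF) => (⟨x.1.1, ?_⟩ : {x | r x ∈ N})) ?_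
      · exact Finset.mem_image.2 ⟨x.1, x.2, rfl⟩
      · intro x y hxy
        have := congrArg Subtype.val hxy
        exact Subtype.ext (Subtype.ext this)
    have h3 : {y | ∃ n ∈ N, n - 1 ≤ s y ∧ s y ≤ n + 1} ⊆ ((S.biUnion t : Finset Q) : Set Q) := by
      rintro y ⟨n, hn, hy⟩
      obtain ⟨x, hx, rfl⟩ := Finset.mem_image.1 hn
      simp only [Finset.coe_biUnion, Set.mem_iUnion, t, Finset.mem_coe, Set.Finite.coe_toFinset]
      exact ⟨x, hx, hy⟩
    have h4 := (h2.trans h1).trans (mk_le_mk_of_subset h3)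
    simp only [Finset.coe_sort_coe, Cardinal.mk_coe_finset] at h4
    exact_mod_cast h4
  obtain ⟨g, hg1, hg2⟩ := (Finset.all_card_le_biUnion_card_iff_exists_injective t).1 hHall
  have hg3 : ∀ x : PF, r x.1 - 1 ≤ s (g x) ∧ s (g x) ≤ r x.1 + 1 := fun x => by
    have := hg2 x
    simpa [t] using this
  let f : P → Option Q := fun x => if h : x ∈ PF then some (g ⟨x, h⟩) else
    if h' : 1 ≤ r x ∧ Inf (r x) then some (e (kk (r x)) ⟨x, h'.1, h'.2, rfl⟩).1 else none
  have hf1 : ∀ x (h : x ∈ PF), f x = some (g ⟨x, h⟩) := fun x h => dif_pos h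
  have hf2 : ∀ x (h : 1 ≤ r x ∧ Inf (r x)),
      f x = some (e (kk (r x)) ⟨x, h.1, h.2, rfl⟩).1 := by
    intro x h
    have hn : x ∉ PF := fun hx => hx.2 h.2
    simp only [f]
    rw [dif_neg hn, dif_pos h]
  have hf3 : ∀ x, x ∉ PF → ¬ (1 ≤ r x ∧ Inf (r x)) → f x = none := by
    intro x h1 h2
    simp only [f]
    rw [dif_neg h1, dif_neg h2]
  refine ⟨f, ?_, ?_⟩
  · intro x hx
    by_cases hI : Inf (r x)
    · refine ⟨_, hf2 x ⟨hx, hI⟩, ?_⟩
      have h1 := hkk _ hx hI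
      have h2 : s (e (kk (r x)) ⟨x, hx, hI, rfl⟩).1 = kk (r x) :=
        (e (kk (r x)) ⟨x, hx, hI, rfl⟩).2
      rw [h2]
      exact ⟨h1.1, h1.2.1⟩
    · exact ⟨_, hf1 x ⟨hx, hI⟩, hg3 ⟨x, hx, hI⟩⟩
  · -- injectivity
    have hsplit : ∀ x y, f x = some y → (∃ h : x ∈ PF, g ⟨x, h⟩ = y) ∨
        ∃ (k : ℕ) (h : x ∈ XK k), (e k ⟨x, h⟩).1 = y ∧ s y = k ∧ ℵ₀ ≤ b k := by
      intro x y hxy
      by_cases h1 : x ∈ PF
      · rw [hf1 x h1] at hxy
        exact Or.inl ⟨h1, Option.some.inj hxy⟩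
      · by_cases h2 : 1 ≤ r x ∧ Inf (r x)
        · rw [hf2 x h2] at hxy
          have h3 := Option.some.inj hxy
          refine Or.inr ⟨kk (r x), ⟨h2.1, h2.2, rfl⟩, h3, ?_, (hkk _ h2.1 h2.2).2.2.1⟩
          rw [← h3]
          exact (e (kk (r x)) ⟨x, h2.1, h2.2, rfl⟩).2
        · rw [hf3 x h1 h2] at hxy
          exact absurd hxy (by simp)
    have hcross : ∀ x x' y, (∃ h : x ∈ PF, g ⟨x, h⟩ = y) →
        (∃ (k : ℕ) (h : x' ∈ XK k), (e k ⟨x', h⟩).1 = y ∧ s y = k ∧ ℵ₀ ≤ b k) → False := by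
      rintro x x' y ⟨h, rfl⟩ ⟨k, _, _, h2, h3⟩
      have h4 := hg3 ⟨x, h⟩
      rw [h2] at h4
      exact h.2 ⟨k, h4.1, h4.2, h3⟩
    intro x x' y h1 h2
    rcases hsplit x y h1 with h3 | h3 <;> rcases hsplit x' y h2 with h4 | h4
    · obtain ⟨a, ha⟩ := h3
      obtain ⟨a', ha'⟩ := h4
      have := hg1 (ha.trans ha'.symm)
      exact congrArg Subtype.val this
    · exact (hcross x x' y h3 h4).elim
    · exact (hcross x' x y h4 h3).elim
    · obtain ⟨k, a, ha, hk, _⟩ := h3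
      obtain ⟨k', a', ha', hk', _⟩ := h4
      have : k = k' := hk.symm.trans hk'
      subst this
      have := (e k).injective (Subtype.ext (ha.trans ha'.symm))
      exact congrArg Subtype.val this

end Hall

end Pool.Agent.X172.IX
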