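import Pool.Agent.X172.IX.Rel

set_option autoImplicit false
open Cardinal

namespace Pool.Agent.X172.IX

universe u
variable {X : Type u} {A B U M : X → X → Prop}

/-- number of components with a point satisfying `P` -/
noncomputable def NC (A : X → X → Prop) (P : X → Prop) : Cardinal.{u} :=
  #{C : Set X | ∃ x, P x ∧ C = comp A x}

def In (A : X → X → Prop) (x : X) : Prop := ∀ z, ¬ A z x
def Te (A : X → X → Prop) (x : X) : Prop := ∀ z, ¬ A x z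
/-- `n` backward steps are possible -/
def bw (A : X → X → Prop) (n : ℕ) (x : X) : Prop := ∃ z, RI A n z x
def fw (A : X → X → Prop) (n : ℕ) (x : X) : Prop := ∃ z, RI A n x z

theorem bw_mono {m n : ℕ} {x : X} (h : m ≤ n) (hx : bw A n x) : bw A m x := by
  obtain ⟨z, hz⟩ := hx
  have e : n = (n - m) + m := by omega
  rw [e] at hz
  obtain ⟨t, _, h2⟩ := (RI_add _ _ _ _).1 hz
  exact ⟨t, h2⟩

theorem fw_mono {m n : ℕ} {x : X} (h : m ≤ n) (hx : fw A n x) : fw A m x := by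
  obtain ⟨z, hz⟩ := hx
  have e : n = m + (n - m) := by omega
  rw [e] at hz
  obtain ⟨t, h1, _⟩ := (RI_add _ _ _ _).1 hz
  exact ⟨t, h1⟩

theorem bw_flp {n : ℕ} {x : X} : bw (flp A) n x ↔ fw A n x :=
  ⟨fun ⟨z, hz⟩ => ⟨z, (RI_flp _ _ _).1 hz⟩, fun ⟨z, hz⟩ => ⟨z, (RI_flp _ _ _).2 hz⟩⟩

theorem Te_fw {n : ℕ} {x : X} (h : Te A x) (hx : fw A n x) : n = 0 := by
  cases n with
  | zero => rfl
  | succ n =>
    obtain ⟨z, t, h1, _⟩ := hx
    exact absurd h1 (h t)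

theorem In_bw {n : ℕ} {x : X} (h : In A x) (hx : bw A n x) : n = 0 :=
  Te_fw (A := flp A) (n := n) h (by
    obtain ⟨z, hz⟩ := hx
    exact ⟨z, (RI_flp _ _ _).2 hz⟩)

theorem exists_rank {x : X} (h : ¬ Bw A x) : ∃ r, ∀ n, bw A n x ↔ n ≤ r := by
  classical
  have h' : ∃ n, ¬ bw A n x := by
    by_contra hc
    push Not at hc
    exact h hc
  have h0 : Nat.find h' ≠ 0 := by
    intro hc
    have := Nat.find_spec h'
    rw [hc] at this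
    exact this ⟨x, rfl⟩
  refine ⟨Nat.find h' - 1, fun n => ⟨fun hn => ?_, fun hn => ?_⟩⟩
  · by_contra hc
    push Not at hc
    exact Nat.find_spec h' (bw_mono (by omega) hn)
  · by_contra hc
    have := Nat.find_min' h' hc
    omega

/-- every component has an initial point or is infinite backwards -/
theorem exists_pt (x : X) : ∃ y, conn A x y ∧ (Bw A y ∨ In A y) := by
  by_cases h : Bw A x
  · exact ⟨x, conn_refl x, Or.inl h⟩
  · obtain ⟨r, hr⟩ := exists_rank h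
    obtain ⟨y, hy⟩ := (hr r).2 le_rfl
    refine ⟨y, ⟨r, Or.inr hy⟩, Or.inr fun z hz => ?_⟩
    have := (hr (r + 1)).1 ⟨z, y, hz, hy⟩
    omega

theorem exists_term (x : X) (h : ¬ Fw A x) : ∃ n y, RI A n x y ∧ Te A y := by
  have h' : ¬ Bw (flp A) x := fun hc => h fun n => by
    obtain ⟨z, hz⟩ := hc n
    exact ⟨z, (RI_flp _ _ _).1 hz⟩
  obtain ⟨r, hr⟩ := exists_rank h'
  obtain ⟨y, hy⟩ := (hr r).2 le_rfl
  refine ⟨r, y, (RI_flp _ _ _).1 hy, fun z hz => ?_⟩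
  have := (hr (r + 1)).1 ⟨z, y, hz, hy⟩
  omega

theorem NC_le (hB : PInj B) (hA : PInj A) {P P' : X → Prop} (R : X → X → Prop)
    (h : ∀ x, P x → ∃ y, P' y ∧ R x y)
    (hR : ∀ x y x' y', P x → P x' → R x y → R x' y' → conn B y y' → conn A x x') :
    NC A P ≤ NC B P' := by
  classical
  have h1 : ∀ C : {C : Set X | ∃ x, P x ∧ C = comp A x}, ∃ x y, P x ∧ C.1 = comp A x ∧ P' y ∧ R x y := by
    rintro ⟨C, x, hx, rfl⟩
    obtain ⟨y, hy1, hy2⟩ := h x hx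
    exact ⟨x, y, hx, rfl, hy1, hy2⟩
  choose fx fy h2 h3 h4 h5 using h1
  refine mk_le_of_injective (f := fun C => ⟨comp B (fy C), fy C, h4 C, rfl⟩) ?_
  intro C C' hCC
  have h6 : comp B (fy C) = comp B (fy C') := congrArg Subtype.val hCC
  have h7 := hR _ _ _ _ (h2 C) (h2 C') (h5 C) (h5 C') ((comp_eq hB).1 h6)
  apply Subtype.ext
  rw [h3 C, h3 C']
  exact (comp_eq hA).2 h7

/-- components with terminal points are counted by them -/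
theorem NC_term (hA : PInj A) {P : X → Prop} (hP : ∀ x, P x → Te A x) :
    NC A P = #{x | P x} := by
  apply le_antisymm
  · have h1 : ∀ C : {C : Set X | ∃ x, P x ∧ C = comp A x}, ∃ x, P x ∧ C.1 = comp A x := fun C => C.2
    choose f h2 h3 using h1
    refine mk_le_of_injective (f := fun C => (⟨f C, h2 C⟩ : {x | P x})) ?_
    intro C C' h
    have := congrArg Subtype.val h
    apply Subtype.ext
    rw [h3 C, h3 C']
    exact congrArg (comp A) this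
  · refine mk_le_of_injective (f := fun x : {x | P x} =>
      (⟨comp A x.1, x.1, x.2, rfl⟩ : {C : Set X | ∃ x, P x ∧ C = comp A x})) ?_
    intro x y h
    have h1 : comp A x.1 = comp A y.1 := congrArg Subtype.val h
    exact Subtype.ext (term_unique hA (hP _ x.2) (hP _ y.2) ((comp_eq hA).1 h1))

/-! ### cycles -/

theorem RI_mul {k : ℕ} {x : X} (h : RI A k x x) (m : ℕ) : RI A (k * m) x x := by
  induction m with
  | zero => rfl
  | succ m ih => exact (RI_add _ _ _ _).2 ⟨x, ih, h⟩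

theorem Cy_Fw {k : ℕ} {x : X} (h : Cy A k x) : Fw A x := fun n =>
  fw_mono (n := k * n) (Nat.le_mul_of_pos_left n h.1) ⟨x, RI_mul h.2.1 n⟩

theorem Cy_Bw {k : ℕ} {x : X} (h : Cy A k x) : Bw A x := fun n =>
  bw_mono (n := k * n) (Nat.le_mul_of_pos_left n h.1) ⟨x, RI_mul h.2.1 n⟩

theorem Cy_dvd (hA : PInj A) {k n : ℕ} {x : X} (h : Cy A k x) : RI A n x x ↔ k ∣ n := by
  constructor
  · intro hn
    have h1 : k * (n / k) ≤ n := Nat.mul_div_le n k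
    have h2 := RI_sub hA h1 (RI_mul h.2.1 (n / k)) hn
    have h3 : n - k * (n / k) = n % k := by
      have := Nat.div_add_mod n k
      omega
    rw [h3] at h2
    by_contra hc
    have h4 : 0 < n % k := Nat.pos_of_ne_zero fun h0 => hc (Nat.dvd_of_mod_eq_zero h0)
    exact h.2.2 _ h4 (Nat.mod_lt _ h.1) h2
  · rintro ⟨m, rfl⟩
    exact RI_mul h.2.1 m

theorem Cy_unique (hA : PInj A) {k l : ℕ} {x : X} (h : Cy A k x) (h' : Cy A l x) : k = l :=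
  Nat.dvd_antisymm ((Cy_dvd hA h).1 h'.2.1) ((Cy_dvd hA h').1 h.2.1)

theorem Cy_or_Ap (x : X) : (∃ k, Cy A k x) ∨ Ap A x := by
  classical
  by_cases h : ∃ n, 0 < n ∧ RI A n x x
  · left
    refine ⟨Nat.find h, (Nat.find_spec h).1, (Nat.find_spec h).2, fun j h1 h2 h3 => ?_⟩
    exact Nat.find_min h h2 ⟨h1, h3⟩
  · right
    intro n hn hc
    exact h ⟨n, hn, hc⟩

theorem Te_Ap {x : X} (h : Te A x) : Ap A x := fun n hn hc => by
  have := Te_fw h ⟨x, hc⟩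
  omega

theorem In_Ap {x : X} (h : In A x) : Ap A x := fun n hn hc => by
  have := In_bw h ⟨x, hc⟩
  omega

/-! ### consequences of an intertwining partial injection -/

structure Int (A B U : X → X → Prop) : Prop where
  inter : ∀ z w', (∃ z', A z z' ∧ U z' w') ↔ ∃ w, U z w ∧ B w w'

theorem N1 (hI : Int A B U) {n : ℕ} {z w w' : X} (h1 : U z w) (h2 : RI B n w w') :
    ∃ z', RI A n z z' ∧ U z' w' := by
  induction n generalizing z w with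
  | zero =>
    have : w = w' := h2
    subst this
    exact ⟨z, rfl, h1⟩
  | succ n ih =>
    obtain ⟨t, h3, h4⟩ := h2
    obtain ⟨z', h5, h6⟩ := (hI.inter z t).2 ⟨w, h1, h3⟩
    obtain ⟨z'', h7, h8⟩ := ih h6 h4
    exact ⟨z'', ⟨z', h5, h7⟩, h8⟩

theorem N2 (hI : Int A B U) {n : ℕ} {z z' w' : X} (h1 : RI A n z z') (h2 : U z' w') :
    ∃ w, U z w ∧ RI B n w w' := by
  induction n generalizing z with
  | zero =>
    have : z = z' := h1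
    subst this
    exact ⟨w', h2, rfl⟩
  | succ n ih =>
    obtain ⟨t, h3, h4⟩ := h1
    obtain ⟨w, h5, h6⟩ := ih h4
    obtain ⟨w'', h7, h8⟩ := (hI.inter z w).1 ⟨t, h3, h5⟩
    exact ⟨w'', h7, ⟨w, h8, h6⟩⟩

theorem N3 (hU : PInj U) (hI : Int A B U) {z z' w w' : X} (h1 : U z w) (h2 : U z' w')
    (h : conn B w w') : conn A z z' := by
  obtain ⟨n, h | h⟩ := h
  · obtain ⟨t, h3, h4⟩ := N1 hI h1 h
    rw [hU.inj _ _ _ h4 h2] at h3
    exact ⟨n, Or.inl h3⟩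
  · obtain ⟨t, h3, h4⟩ := N1 hI h2 h
    rw [hU.inj _ _ _ h4 h1] at h3
    exact ⟨n, Or.inr h3⟩

theorem N_per (hU : PInj U) (hI : Int A B U) {z w : X} (h1 : U z w) (n : ℕ) :
    RI A n z z ↔ RI B n w w := by
  constructor
  · intro h
    obtain ⟨t, h3, h4⟩ := N2 hI h h1
    rwa [hU.fn _ _ _ h3 h1] at h4
  · intro h
    obtain ⟨t, h3, h4⟩ := N1 hI h1 h
    rwa [hU.inj _ _ _ h4 h1] at h3

theorem N_Cy (hU : PInj U) (hI : Int A B U) {z w : X} (h1 : U z w) {k : ℕ} (h : Cy A k z) :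
    Cy B k w :=
  ⟨h.1, (N_per hU hI h1 k).1 h.2.1, fun j h2 h3 hc => h.2.2 j h2 h3 ((N_per hU hI h1 j).2 hc)⟩

theorem N_Ap (hU : PInj U) (hI : Int A B U) {z w : X} (h1 : U z w) (h : Ap A z) : Ap B w :=
  fun n hn hc => h n hn ((N_per hU hI h1 n).2 hc)

theorem N_bw (hI : Int A B U) {z w : X} {n : ℕ} (h1 : U z w) (h : bw A n z) :
    bw B n w := by
  obtain ⟨t, ht⟩ := h
  obtain ⟨s, _, h3⟩ := N2 hI ht h1
  exact ⟨s, h3⟩

theorem N_Bw (hI : Int A B U) {z w : X} (h1 : U z w) (h : Bw A z) : Bw B w :=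
  fun n => N_bw hI h1 (h n)

theorem N_Te (hI : Int A B U) {z w : X} (h1 : U z w) (h : Te A z) : Te B w := by
  intro w' hw
  obtain ⟨z', h2, _⟩ := (hI.inter z w').2 ⟨w, h1, hw⟩
  exact h z' h2

theorem N_Fw (hU : PInj U) (hI : Int A B U) (hdom : ∀ z z', A z z' → ∃ w, U z w) {z w : X}
    (h1 : U z w) (h : Fw A z) : Fw B w := by
  intro n
  obtain ⟨t, ht⟩ := h (n + 1)
  obtain ⟨s, h2, h3⟩ := (RI_snoc _ _ _).1 ht
  obtain ⟨w', hw'⟩ := hdom _ _ h3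
  obtain ⟨v, h4, h5⟩ := N2 hI h2 hw'
  rw [hU.fn _ _ _ h4 h1] at h5
  exact ⟨w', h5⟩

theorem Fw_dom {z : X} (h : Fw A z) : ∃ z', A z z' := by
  obtain ⟨t, s, h1, _⟩ := h 1
  exact ⟨s, h1⟩

/-- cycles and double rays -/
theorem cyc_le (hA : PInj A) (hB : PInj B) (hU : PInj U) (hI : Int A B U)
    (hdom : ∀ z z', A z z' → ∃ w, U z w) (k : ℕ) : NC A (Cy A k) ≤ NC B (Cy B k) := by
  refine NC_le hB hA U (fun x hx => ?_) (fun x y x' y' _ _ h1 h2 h3 => N3 hU hI h1 h2 h3)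
  obtain ⟨z', hz⟩ := Fw_dom (Cy_Fw hx)
  obtain ⟨w, hw⟩ := hdom _ _ hz
  exact ⟨w, N_Cy hU hI hw hx, hw⟩

theorem dbl_le (hA : PInj A) (hB : PInj B) (hU : PInj U) (hI : Int A B U)
    (hdom : ∀ z z', A z z' → ∃ w, U z w) :
    NC A (fun x => Fw A x ∧ Bw A x ∧ Ap A x) ≤ NC B (fun x => Fw B x ∧ Bw B x ∧ Ap B x) := by
  refine NC_le hB hA U (fun x hx => ?_) (fun x y x' y' _ _ h1 h2 h3 => N3 hU hI h1 h2 h3)
  obtain ⟨z', hz⟩ := Fw_dom hx.1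
  obtain ⟨w, hw⟩ := hdom _ _ hz
  exact ⟨w, ⟨N_Fw hU hI hdom hw hx.1, N_Bw hI hw hx.2.1, N_Ap hU hI hw hx.2.2⟩, hw⟩

/-! #### the `c` case -/

theorem rd_le (hA : PInj A) (hB : PInj B) (hU : PInj U) (hI : Int A B U)
    (hdom : ∀ z z', A z z' → ∃ w, U z w) :
    NC A (fun x => Fw A x ∧ Ap A x ∧ (Bw A x ∨ In A x)) ≤
      NC B (fun x => Fw B x ∧ Ap B x ∧ (Bw B x ∨ In B x)) := by
  refine NC_le hB hA (fun x y => ∃ w, U x w ∧ conn B w y) (fun x hx => ?_) ?_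
  · obtain ⟨z', hz⟩ := Fw_dom hx.1
    obtain ⟨w, hw⟩ := hdom _ _ hz
    obtain ⟨y, hy1, hy2⟩ := exists_pt (A := B) w
    exact ⟨y, ⟨Fw_conn hB hy1 (N_Fw hU hI hdom hw hx.1), Ap_conn hB hy1 (N_Ap hU hI hw hx.2.1),
      hy2⟩, w, hw, hy1⟩
  · rintro x y x' y' _ _ ⟨w, hw, h1⟩ ⟨w', hw', h2⟩ h3
    exact N3 hU hI hw hw' (conn_trans hB h1 (conn_trans hB h3 (conn_symm h2)))

theorem lr_le_c (hA : PInj A) (hB : PInj B) (hU : PInj U) (hI : Int A B U)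
    (him : ∀ z z', A z z' → ∃ w, U z' w) :
    NC A (fun x => Te A x ∧ Bw A x) ≤ NC B (fun x => Te B x ∧ Bw B x) := by
  refine NC_le hB hA U (fun x hx => ?_) (fun x y x' y' _ _ h1 h2 h3 => N3 hU hI h1 h2 h3)
  obtain ⟨z, hz⟩ := hx.2 1
  obtain ⟨t, h1, h2⟩ := hz
  have : t = x := h2
  subst this
  obtain ⟨w, hw⟩ := him _ _ h1
  exact ⟨w, ⟨N_Te hI hw hx.1, N_Bw hI hw hx.2⟩, hw⟩

theorem en_le_c (hA : PInj A) (hB : PInj B) (hU : PInj U) (hI : Int A B U)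
    (him : ∀ z z', A z z' → ∃ w, U z' w) (n : ℕ) (hn : 0 < n) :
    NC A (fun x => Te A x ∧ bw A n x) ≤ NC B (fun x => Te B x ∧ bw B n x) := by
  refine NC_le hB hA U (fun x hx => ?_) (fun x y x' y' _ _ h1 h2 h3 => N3 hU hI h1 h2 h3)
  obtain ⟨z, hz⟩ := bw_mono (m := 1) hn hx.2
  obtain ⟨t, h1, h2⟩ := hz
  have : t = x := h2
  subst this
  obtain ⟨w, hw⟩ := him _ _ h1
  exact ⟨w, ⟨N_Te hI hw hx.1, N_bw hI hw hx.2⟩, hw⟩

/-! #### the `p` case -/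

theorem rr_le_p (hA : PInj A) (hB : PInj B) (hU : PInj U) (hI : Int A B U)
    (hdom : ∀ z z', A z z' → ∃ w, U z w) (him : ∀ w w', B w w' → ∃ z, U z w') :
    NC A (fun x => Fw A x ∧ In A x) ≤ NC B (fun x => Fw B x ∧ In B x) := by
  refine NC_le hB hA (fun x y => ∃ w, U x w ∧ conn B w y) (fun x hx => ?_) ?_
  · obtain ⟨z', hz⟩ := Fw_dom hx.1
    obtain ⟨w, hw⟩ := hdom _ _ hz
    obtain ⟨y, hy1, hy2⟩ := exists_pt (A := B) w
    refine ⟨y, ⟨Fw_conn hB hy1 (N_Fw hU hI hdom hw hx.1), ?_⟩, w, hw, hy1⟩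
    rcases hy2 with hy2 | hy2
    · exfalso
      have hBw := Bw_conn hB (conn_symm hy1) hy2
      obtain ⟨w2, w1, h1, h2⟩ := hBw 2
      obtain ⟨z1, hz1⟩ := him _ _ h1
      obtain ⟨z2, h3, h4⟩ := N1 hI hz1 h2
      rw [hU.inj _ _ _ h4 hw] at h3
      exact absurd (In_bw (n := 1) hx.2 ⟨z1, h3⟩) (by norm_num)
    · exact hy2
  · rintro x y x' y' _ _ ⟨w, hw, h1⟩ ⟨w', hw', h2⟩ h3
    exact N3 hU hI hw hw' (conn_trans hB h1 (conn_trans hB h3 (conn_symm h2)))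

/-- the image of a terminal point -/
theorem term_image (hA : PInj A) (hI : Int A B U)
    (hdom : ∀ z z', A z z' → ∃ w, U z w) {x : X} (hx : Te A x) (h1 : bw A 1 x) :
    ∃ w, Te B w ∧ (U x w ∨ ∃ x1, A x1 x ∧ U x1 w) := by
  by_cases h : ∃ w, U x w
  · obtain ⟨w, hw⟩ := h
    exact ⟨w, N_Te hI hw hx, Or.inl hw⟩
  · obtain ⟨x1, t, h2, h3⟩ := h1
    have e : t = x := h3
    subst e
    obtain ⟨w, hw⟩ := hdom _ _ h2
    refine ⟨w, fun w' hw' => ?_, Or.inr ⟨x1, h2, hw⟩⟩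
    obtain ⟨z', h4, h5⟩ := (hI.inter x1 w').2 ⟨w, hw, hw'⟩
    rw [hA.fn _ _ _ h4 h2] at h5
    exact h ⟨_, h5⟩

theorem term_rel (hA : PInj A) (hU : PInj U) (hI : Int A B U) (x y x' y' : X)
    (h1 : U x y ∨ ∃ x1, A x1 x ∧ U x1 y) (h2 : U x' y' ∨ ∃ x1, A x1 x' ∧ U x1 y')
    (h3 : conn B y y') : conn A x x' := by
  have key : ∀ x y, (U x y ∨ ∃ x1, A x1 x ∧ U x1 y) → ∃ x1, conn A x x1 ∧ U x1 y := by
    rintro x y (h | ⟨x1, h, h'⟩)
    · exact ⟨x, conn_refl x, h⟩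
    · exact ⟨x1, ⟨1, Or.inr ⟨x, h, rfl⟩⟩, h'⟩
  obtain ⟨a, ha1, ha2⟩ := key x y h1
  obtain ⟨b, hb1, hb2⟩ := key x' y' h2
  exact conn_trans hA ha1 (conn_trans hA (N3 hU hI ha2 hb2 h3) (conn_symm hb1))

theorem lr_le_p (hA : PInj A) (hB : PInj B) (hU : PInj U) (hI : Int A B U)
    (hdom : ∀ z z', A z z' → ∃ w, U z w) :
    NC A (fun x => Te A x ∧ Bw A x) ≤ NC B (fun x => Te B x ∧ Bw B x) := by
  refine NC_le hB hA (fun x y => U x y ∨ ∃ x1, A x1 x ∧ U x1 y) (fun x hx => ?_)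
    (fun x y x' y' _ _ h1 h2 h3 => term_rel hA hU hI x y x' y' h1 h2 h3)
  obtain ⟨w, hw1, hw2⟩ := term_image hA hI hdom hx.1 (hx.2 1)
  refine ⟨w, ⟨hw1, ?_⟩, hw2⟩
  rcases hw2 with h | ⟨x1, h, h'⟩
  · exact N_Bw hI h hx.2
  · exact N_Bw hI h' (Bw_conn hA ⟨1, Or.inr ⟨x, h, rfl⟩⟩ hx.2)

theorem ch_le_p (hA : PInj A) (hB : PInj B) (hU : PInj U) (hI : Int A B U)
    (hdom : ∀ z z', A z z' → ∃ w, U z w) (him : ∀ w w', B w w' → ∃ z, U z w') (i j : ℕ)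
    (hi : 2 ≤ i) :
    NC A (fun x => Te A x ∧ bw A (i - 1) x ∧ ¬ bw A j x) ≤
      NC B (fun x => Te B x ∧ bw B (i - 1 - 1) x ∧ ¬ bw B (j + 1) x) := by
  refine NC_le hB hA (fun x y => U x y ∨ ∃ x1, A x1 x ∧ U x1 y) (fun x hx => ?_)
    (fun x y x' y' _ _ h1 h2 h3 => term_rel hA hU hI x y x' y' h1 h2 h3)
  obtain ⟨w, hw1, hw2⟩ := term_image hA hI hdom hx.1 (bw_mono (by omega) hx.2.1)
  refine ⟨w, ⟨hw1, ?_, ?_⟩, hw2⟩
  · rcases hw2 with h | ⟨x1, h, h'⟩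
    · exact bw_mono (by omega) (N_bw hI h hx.2.1)
    · refine N_bw hI h' ?_
      obtain ⟨z, hz⟩ := hx.2.1
      have e : i - 1 = (i - 1 - 1) + 1 := by omega
      rw [e] at hz
      obtain ⟨t, h3, h4⟩ := (RI_snoc _ _ _).1 hz
      rw [hA.inj _ _ _ h4 h] at h3
      exact ⟨z, h3⟩
  · rintro ⟨w0, t, h1, h2⟩
    obtain ⟨z, hz⟩ := him _ _ h1
    obtain ⟨z', h3, h4⟩ := N1 hI hz h2
    rcases hw2 with h | ⟨x1, h, h'⟩
    · rw [hU.inj _ _ _ h4 h] at h3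
      exact hx.2.2 ⟨z, h3⟩
    · rw [hU.inj _ _ _ h4 h'] at h3
      exact hx.2.2 (bw_mono (Nat.le_succ j) ⟨z, (RI_snoc _ _ _).2 ⟨x1, h3, h⟩⟩)

end Pool.Agent.X172.IX
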