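import Mathlib

set_option autoImplicit false
open Cardinal

namespace Pool.Agent.X172.IX

universe u
variable {X : Type u}

/-- `n` steps of the relation -/
def RI (R : X → X → Prop) : ℕ → X → X → Prop
  | 0, x, y => x = y
  | n + 1, x, y => ∃ z, R x z ∧ RI R n z y

structure PInj (R : X → X → Prop) : Prop where
  fn : ∀ x y z, R x y → R x z → y = z
  inj : ∀ x y z, R x z → R y z → x = y

def flp (R : X → X → Prop) : X → X → Prop := fun x y => R y x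

variable {A B M : X → X → Prop}

theorem PInj.rev (h : PInj A) : PInj (flp A) :=
  ⟨fun x y z h1 h2 => h.inj y z x h1 h2, fun x y z h1 h2 => h.fn z x y h1 h2⟩

theorem RI_snoc (n : ℕ) (x y : X) : RI A (n + 1) x y ↔ ∃ z, RI A n x z ∧ A z y := by
  induction n generalizing x with
  | zero =>
    constructor
    · rintro ⟨z, h1, h2⟩
      have h2' : z = y := h2
      subst h2'
      exact ⟨x, rfl, h1⟩
    · rintro ⟨z, h1, h2⟩
      have h1' : x = z := h1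
      subst h1'
      exact ⟨y, h2, rfl⟩
  | succ n ih =>
    constructor
    · rintro ⟨z, h1, h2⟩
      obtain ⟨t, h3, h4⟩ := (ih z).1 h2
      exact ⟨t, ⟨z, h1, h3⟩, h4⟩
    · rintro ⟨t, ⟨z, h1, h3⟩, h4⟩
      exact ⟨z, h1, (ih z).2 ⟨t, h3, h4⟩⟩

theorem RI_add (m n : ℕ) (x y : X) : RI A (m + n) x y ↔ ∃ z, RI A m x z ∧ RI A n z y := by
  induction m generalizing x with
  | zero =>
    rw [Nat.zero_add]
    constructor
    · intro h; exact ⟨x, rfl, h⟩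
    · rintro ⟨z, h1, h2⟩
      have h1' : x = z := h1
      subst h1'; exact h2
  | succ m ih =>
    have e : m + 1 + n = (m + n) + 1 := by omega
    rw [e]
    constructor
    · rintro ⟨z, h1, h2⟩
      obtain ⟨t, h3, h4⟩ := (ih z).1 h2
      exact ⟨t, ⟨z, h1, h3⟩, h4⟩
    · rintro ⟨t, ⟨z, h1, h3⟩, h4⟩
      exact ⟨z, h1, (ih z).2 ⟨t, h3, h4⟩⟩

theorem RI_flp (n : ℕ) (x y : X) : RI (flp A) n x y ↔ RI A n y x := by
  induction n generalizing x with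
  | zero => exact eq_comm
  | succ n ih =>
    rw [RI_snoc (A := A)]
    constructor
    · rintro ⟨z, h1, h2⟩
      exact ⟨z, (ih z).1 h2, h1⟩
    · rintro ⟨z, h1, h2⟩
      exact ⟨z, h2, (ih z).2 h1⟩

theorem RI_fn (hA : PInj A) {n : ℕ} {x y z : X} (h1 : RI A n x y) (h2 : RI A n x z) : y = z := by
  induction n generalizing x with
  | zero => exact (show x = y from h1).symm.trans h2
  | succ n ih =>
    obtain ⟨t, h3, h4⟩ := h1
    obtain ⟨t', h3', h4'⟩ := h2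
    have := hA.fn _ _ _ h3 h3'
    subst this
    exact ih h4 h4'

theorem RI_inj (hA : PInj A) {n : ℕ} {x y z : X} (h1 : RI A n x z) (h2 : RI A n y z) : x = y :=
  RI_fn hA.rev ((RI_flp n z x).2 h1) ((RI_flp n z y).2 h2)

theorem RI_sub (hA : PInj A) {m n : ℕ} {x y z : X} (h : m ≤ n) (h1 : RI A m x y)
    (h2 : RI A n x z) : RI A (n - m) y z := by
  have e : n = m + (n - m) := by omega
  rw [e] at h2
  obtain ⟨t, h3, h4⟩ := (RI_add _ _ _ _).1 h2
  rwa [RI_fn hA h1 h3]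

theorem RI_sub' (hA : PInj A) {m n : ℕ} {x y z : X} (h : m ≤ n) (h1 : RI A m y x)
    (h2 : RI A n z x) : RI A (n - m) z y :=
  (RI_flp _ _ _).1 (RI_sub hA.rev h ((RI_flp _ _ _).2 h1) ((RI_flp _ _ _).2 h2))

/-- same component -/
def conn (A : X → X → Prop) (x y : X) : Prop := ∃ n, RI A n x y ∨ RI A n y x

theorem conn_refl (x : X) : conn A x x := ⟨0, Or.inl rfl⟩
theorem conn_symm {x y : X} (h : conn A x y) : conn A y x := by
  obtain ⟨n, h⟩ := h; exact ⟨n, h.symm⟩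

theorem conn_trans (hA : PInj A) {x y z : X} (h1 : conn A x y) (h2 : conn A y z) :
    conn A x z := by
  obtain ⟨m, h1⟩ := h1
  obtain ⟨n, h2⟩ := h2
  rcases h1 with h1 | h1 <;> rcases h2 with h2 | h2
  · exact ⟨m + n, Or.inl ((RI_add _ _ _ _).2 ⟨y, h1, h2⟩)⟩
  · rcases le_total m n with h | h
    · exact ⟨n - m, Or.inr (RI_sub' hA h h1 h2)⟩
    · exact ⟨m - n, Or.inl (RI_sub' hA h h2 h1)⟩
  · rcases le_total m n with h | h
    · exact ⟨n - m, Or.inl (RI_sub hA h h1 h2)⟩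
    · exact ⟨m - n, Or.inr (RI_sub hA h h2 h1)⟩
  · exact ⟨n + m, Or.inr ((RI_add _ _ _ _).2 ⟨y, h2, h1⟩)⟩

theorem conn_flp {x y : X} : conn (flp A) x y ↔ conn A x y := by
  constructor
  · rintro ⟨n, h⟩
    rw [RI_flp, RI_flp] at h
    exact ⟨n, h.symm⟩
  · rintro ⟨n, h⟩
    refine ⟨n, ?_⟩
    rw [RI_flp, RI_flp]
    exact h.symm

def comp (A : X → X → Prop) (x : X) : Set X := {y | conn A x y}

theorem comp_eq (hA : PInj A) {x y : X} : comp A x = comp A y ↔ conn A x y := by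
  constructor
  · intro h
    have : y ∈ comp A y := conn_refl y
    rw [← h] at this
    exact this
  · intro h
    ext z
    exact ⟨fun h1 => conn_trans hA (conn_symm h) h1, fun h1 => conn_trans hA h h1⟩

def Fw (A : X → X → Prop) (x : X) : Prop := ∀ n, ∃ y, RI A n x y
def Bw (A : X → X → Prop) (x : X) : Prop := ∀ n, ∃ y, RI A n y x
def Ap (A : X → X → Prop) (x : X) : Prop := ∀ n, 0 < n → ¬ RI A n x x
def Cy (A : X → X → Prop) (k : ℕ) (x : X) : Prop :=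
  0 < k ∧ RI A k x x ∧ ∀ j, 0 < j → j < k → ¬ RI A j x x

theorem per_iff (hA : PInj A) {x y : X} (h : conn A x y) (n : ℕ) : RI A n x x ↔ RI A n y y := by
  have key : ∀ x y : X, conn A x y → RI A n y y → RI A n x x := by
    rintro x y ⟨m, h | h⟩ h1
    · have h2 : RI A (m + n) x y := (RI_add _ _ _ _).2 ⟨y, h, h1⟩
      rw [Nat.add_comm] at h2
      obtain ⟨t, h3, h4⟩ := (RI_add _ _ _ _).1 h2
      rwa [RI_inj hA h4 h] at h3
    · have h2 : RI A (n + m) y x := (RI_add _ _ _ _).2 ⟨y, h1, h⟩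
      rw [Nat.add_comm] at h2
      obtain ⟨t, h3, h4⟩ := (RI_add _ _ _ _).1 h2
      rwa [RI_fn hA h3 h] at h4
  exact ⟨key y x (conn_symm h), key x y h⟩

theorem Fw_conn (hA : PInj A) {x y : X} (h : conn A x y) (hx : Fw A x) : Fw A y := by
  obtain ⟨m, h | h⟩ := h
  · intro n
    obtain ⟨z, hz⟩ := hx (m + n)
    obtain ⟨t, h3, h4⟩ := (RI_add _ _ _ _).1 hz
    rw [RI_fn hA h3 h] at h4
    exact ⟨z, h4⟩
  · intro n
    obtain ⟨z, hz⟩ := hx n
    have h2 : RI A (m + n) y z := (RI_add _ _ _ _).2 ⟨x, h, hz⟩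
    rw [Nat.add_comm] at h2
    obtain ⟨t, h3, _⟩ := (RI_add _ _ _ _).1 h2
    exact ⟨t, h3⟩

theorem Bw_conn (hA : PInj A) {x y : X} (h : conn A x y) (hx : Bw A x) : Bw A y := by
  have h1 : Fw (flp A) x := fun n => by
    obtain ⟨z, hz⟩ := hx n
    exact ⟨z, (RI_flp _ _ _).2 hz⟩
  intro n
  obtain ⟨z, hz⟩ := Fw_conn hA.rev (conn_flp.2 h) h1 n
  exact ⟨z, (RI_flp _ _ _).1 hz⟩

theorem Ap_conn (hA : PInj A) {x y : X} (h : conn A x y) (hx : Ap A x) : Ap A y :=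
  fun n hn hc => hx n hn ((per_iff hA h n).2 hc)

theorem Cy_conn (hA : PInj A) {k : ℕ} {x y : X} (h : conn A x y) (hx : Cy A k x) : Cy A k y :=
  ⟨hx.1, (per_iff hA h k).1 hx.2.1, fun j h1 h2 hc => hx.2.2 j h1 h2 ((per_iff hA h j).2 hc)⟩

theorem init_unique (hA : PInj A) {x y : X} (hx : ∀ z, ¬ A z x) (hy : ∀ z, ¬ A z y)
    (h : conn A x y) : x = y := by
  have key : ∀ x y : X, (∀ z, ¬ A z y) → ∀ n, RI A n x y → x = y := by
    intro x y hy n h
    cases n with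
    | zero => exact h
    | succ n =>
      obtain ⟨z, _, h2⟩ := (RI_snoc _ _ _).1 h
      exact absurd h2 (hy z)
  obtain ⟨n, h | h⟩ := h
  · exact key x y hy n h
  · exact (key y x hx n h).symm

theorem term_unique (hA : PInj A) {x y : X} (hx : ∀ z, ¬ A x z) (hy : ∀ z, ¬ A y z)
    (h : conn A x y) : x = y :=
  init_unique hA.rev (A := flp A) hx hy (conn_flp.2 h)

/-! ### glueing -/

def Glue (A B M : X → X → Prop) (z w : X) : Prop :=
  ∃ x y, M x y ∧ ∃ n, (RI A n x z ∧ RI B n y w) ∨ (RI A n z x ∧ RI B n w y)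

theorem Glue_fn (hA : PInj A) (hB : PInj B)
    (ha : ∀ x y x' y', M x y → M x' y' → conn A x x' → x = x' ∧ y = y')
    (hper : ∀ x y, M x y → ∀ n, RI A n x x ↔ RI B n y y) {z w w' : X}
    (h : Glue A B M z w) (h' : Glue A B M z w') : w = w' := by
  obtain ⟨x, y, hM, n, h⟩ := h
  obtain ⟨x', y', hM', m, h'⟩ := h'
  have hc : conn A x z := by rcases h with h | h <;> [exact ⟨n, Or.inl h.1⟩; exact ⟨n, Or.inr h.1⟩]
  have hc' : conn A x' z := by
    rcases h' with h | h <;> [exact ⟨m, Or.inl h.1⟩; exact ⟨m, Or.inr h.1⟩]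
  obtain ⟨rfl, rfl⟩ := ha x y x' y' hM hM' (conn_trans hA hc (conn_symm hc'))
  have hp := hper x y hM
  have key1 : ∀ (n m : ℕ) (w w' : X), n ≤ m → RI A n x z → RI B n y w → RI A m x z →
      RI B m y w' → w = w' := by
    intro n m w w' hnm h1 h2 h3 h4
    have e : m = (m - n) + n := by omega
    have h3' := h3
    rw [e] at h3' h4
    obtain ⟨t, h5, h6⟩ := (RI_add _ _ _ _).1 h3'
    rw [RI_inj hA h6 h1] at h5
    have h7 := (hp _).1 h5
    obtain ⟨t', h8, h9⟩ := (RI_add _ _ _ _).1 h4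
    rw [RI_fn hB h8 h7] at h9
    exact RI_fn hB h2 h9
  have key2 : ∀ (n m : ℕ) (w w' : X), RI A n x z → RI B n y w → RI A m z x →
      RI B m w' y → w = w' := by
    intro n m w w' h1 h2 h3 h4
    have h5 : RI A (n + m) x x := (RI_add _ _ _ _).2 ⟨z, h1, h3⟩
    obtain ⟨t, h6, h7⟩ := (RI_add _ _ _ _).1 ((hp _).1 h5)
    rw [RI_fn hB h6 h2] at h7
    exact RI_inj hB h7 h4
  have key3 : ∀ (n m : ℕ) (w w' : X), n ≤ m → RI A n z x → RI B n w y → RI A m z x →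
      RI B m w' y → w = w' := by
    intro n m w w' hnm h1 h2 h3 h4
    have h5 := RI_sub hA hnm h1 h3
    have h6 := (hp _).1 h5
    have e : m = n + (m - n) := by omega
    rw [e] at h4
    obtain ⟨t, h7, h8⟩ := (RI_add _ _ _ _).1 h4
    rw [RI_inj hB h8 h6] at h7
    exact RI_inj hB h2 h7
  rcases h with ⟨h1, h2⟩ | ⟨h1, h2⟩ <;> rcases h' with ⟨h3, h4⟩ | ⟨h3, h4⟩
  · rcases le_total n m with hnm | hnm
    · exact key1 n m w w' hnm h1 h2 h3 h4
    · exact (key1 m n w' w hnm h3 h4 h1 h2).symm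
  · exact key2 n m w w' h1 h2 h3 h4
  · exact (key2 m n w' w h3 h4 h1 h2).symm
  · rcases le_total n m with hnm | hnm
    · exact key3 n m w w' hnm h1 h2 h3 h4
    · exact (key3 m n w' w hnm h3 h4 h1 h2).symm

structure GoodM (A B M : X → X → Prop) : Prop where
  a : ∀ x y x' y', M x y → M x' y' → conn A x x' → x = x' ∧ y = y'
  b : ∀ x y x' y', M x y → M x' y' → conn B y y' → x = x' ∧ y = y'
  per : ∀ x y, M x y → ∀ n, RI A n x x ↔ RI B n y y
  bwd : ∀ x y, M x y → ∀ n, (∃ z, RI A n z x) → ∃ w, RI B n w y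
  fwd : ∀ x y, M x y → ∀ n, (∃ w, RI B n y w) → ∃ z, RI A n x z

theorem GoodM.rev (h : GoodM A B M) : GoodM (flp B) (flp A) (flp M) where
  a := fun x y x' y' h1 h2 h3 => (h.b y x y' x' h1 h2 (conn_flp.1 h3)).symm
  b := fun x y x' y' h1 h2 h3 => (h.a y x y' x' h1 h2 (conn_flp.1 h3)).symm
  per := fun x y h1 n => by rw [RI_flp, RI_flp]; exact (h.per y x h1 n).symm
  bwd := fun x y h1 n h2 => by
    obtain ⟨z, hz⟩ := h2
    obtain ⟨w, hw⟩ := h.fwd y x h1 n ⟨z, (RI_flp _ _ _).1 hz⟩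
    exact ⟨w, (RI_flp _ _ _).2 hw⟩
  fwd := fun x y h1 n h2 => by
    obtain ⟨z, hz⟩ := h2
    obtain ⟨w, hw⟩ := h.bwd y x h1 n ⟨z, (RI_flp _ _ _).1 hz⟩
    exact ⟨w, (RI_flp _ _ _).2 hw⟩

theorem Glue_swap {z w : X} : Glue A B M z w ↔ Glue B A (flp M) w z := by
  constructor
  · rintro ⟨x, y, h1, n, h | h⟩
    · exact ⟨y, x, h1, n, Or.inl h.symm⟩
    · exact ⟨y, x, h1, n, Or.inr h.symm⟩
  · rintro ⟨x, y, h1, n, h | h⟩
    · exact ⟨y, x, h1, n, Or.inl h.symm⟩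
    · exact ⟨y, x, h1, n, Or.inr h.symm⟩

theorem Glue_flp {z w : X} : Glue A B M z w ↔ Glue (flp B) (flp A) (flp M) w z := by
  constructor
  · rintro ⟨x, y, h1, n, h | h⟩
    · exact ⟨y, x, h1, n, Or.inr ⟨(RI_flp _ _ _).2 h.2, (RI_flp _ _ _).2 h.1⟩⟩
    · exact ⟨y, x, h1, n, Or.inl ⟨(RI_flp _ _ _).2 h.2, (RI_flp _ _ _).2 h.1⟩⟩
  · rintro ⟨x, y, h1, n, h | h⟩
    · exact ⟨y, x, h1, n, Or.inr ⟨(RI_flp _ _ _).1 h.2, (RI_flp _ _ _).1 h.1⟩⟩
    · exact ⟨y, x, h1, n, Or.inl ⟨(RI_flp _ _ _).1 h.2, (RI_flp _ _ _).1 h.1⟩⟩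

theorem GoodM.pinj (hA : PInj A) (hB : PInj B) (h : GoodM A B M) : PInj (Glue A B M) where
  fn := fun _ _ _ h1 h2 => Glue_fn hA hB h.a h.per h1 h2
  inj := fun x y z h1 h2 => Glue_fn hB hA (M := flp M)
    (fun a b a' b' h3 h4 h5 => (h.b b a b' a' h3 h4 h5).symm)
    (fun a b h3 n => (h.per b a h3 n).symm) (Glue_swap.1 h1) (Glue_swap.1 h2)

theorem glue_step (hA : PInj A) (hB : PInj B) (h : GoodM A B M) {z z' w' : X} (h1 : A z z')
    (h2 : Glue A B M z' w') : ∃ w, Glue A B M z w ∧ B w w' := by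
  obtain ⟨x, y, hM, n, h3 | h3⟩ := h2
  · cases n with
    | zero =>
      have e1 : x = z' := h3.1
      have e2 : y = w' := h3.2
      subst e1 e2
      obtain ⟨w, t, hw1, hw2⟩ := h.bwd x y hM 1 ⟨z, x, h1, rfl⟩
      have e3 : t = y := hw2
      subst e3
      exact ⟨w, ⟨x, t, hM, 1, Or.inr ⟨⟨x, h1, rfl⟩, ⟨t, hw1, rfl⟩⟩⟩, hw1⟩
    | succ n =>
      obtain ⟨t, h4, h5⟩ := (RI_snoc _ _ _).1 h3.1
      obtain ⟨w, h6, h7⟩ := (RI_snoc _ _ _).1 h3.2
      have e := hA.inj _ _ _ h5 h1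
      subst e
      exact ⟨w, ⟨x, y, hM, n, Or.inl ⟨h4, h6⟩⟩, h7⟩
  · obtain ⟨w, hw⟩ := h.bwd x y hM (n + 1) ⟨z, z', h1, h3.1⟩
    obtain ⟨t, h4, h5⟩ := hw
    have e := RI_inj hB h5 h3.2
    subst e
    exact ⟨w, ⟨x, y, hM, n + 1, Or.inr ⟨⟨z', h1, h3.1⟩, ⟨t, h4, h5⟩⟩⟩, h4⟩

theorem glue_inter (hA : PInj A) (hB : PInj B) (h : GoodM A B M) (z w' : X) :
    (∃ z', A z z' ∧ Glue A B M z' w') ↔ ∃ w, Glue A B M z w ∧ B w w' := by
  constructor
  · rintro ⟨z', h1, h2⟩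
    exact glue_step hA hB h h1 h2
  · rintro ⟨w, h1, h2⟩
    obtain ⟨t, h3, h4⟩ := glue_step (A := flp B) (B := flp A) (M := flp M) hB.rev hA.rev h.rev
      (z := w') (z' := w) (w' := z) h2 (Glue_flp.1 h1)
    exact ⟨t, h4, Glue_flp.2 h3⟩

end Pool.Agent.X172.IX
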