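import Pool.Agent.X172.IX.Bridge

set_option autoImplicit false
open Cardinal

/-!
# MP_3f621b_al: `c`-conjugacy and `p`-conjugacy in `I(X)`, for every set `X`

Elements of the symmetric inverse monoid `I(X)` are the partial injective maps `a : X ≃. X`
(Mathlib's `PEquiv`), `a.trans b` is first `a`, then `b` (the product `ab` with maps written
on the right), `⊥` is the empty map and `PEquiv.refl X` the identity.
-/

namespace Pool.Agent.X172.SIM

universe u
variable {X : Type u}

/-- The set `ℙ(a)`: only `0` if `a = 0`; otherwise all `g` with `(ma)g ≠ 0` whenever `ma ≠ 0`. -/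
def PP (a : X ≃. X) : Set (X ≃. X) :=
  {g | (a = ⊥ ∧ g = ⊥) ∨ (a ≠ ⊥ ∧ ∀ m : X ≃. X, m.trans a ≠ ⊥ → (m.trans a).trans g ≠ ⊥)}

/-- `ℙ¹(a) = ℙ(a) ∪ {1}`. -/
def PP1 (a : X ≃. X) : Set (X ≃. X) := PP a ∪ {PEquiv.refl X}

/-- `c`-conjugacy in `I(X)`. -/
def CConj (a b : X ≃. X) : Prop :=
  ∃ g ∈ PP1 a, ∃ h ∈ PP1 b, a.trans g = g.trans b ∧ b.trans h = h.trans a

/-- `p`-conjugacy in `I(X)`. -/
def PConj (a b : X ≃. X) : Prop := ∃ u v : X ≃. X, a = u.trans v ∧ b = v.trans u

/-- Applying `a` exactly `n` times takes `x` to `y`. -/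
def Steps (a : X ≃. X) : ℕ → X → X → Prop
  | 0, x, y => x = y
  | n + 1, x, y => ∃ z, a x = some z ∧ Steps a n z y

/-- The component of `x` (all points reached from `x` by going forward or backward along `a`). -/
def component (a : X ≃. X) (x : X) : Set X := {y | ∃ n, Steps a n x y ∨ Steps a n y x}

/-- The number of components of `a` containing a point with property `P`. -/
noncomputable def numComp (a : X ≃. X) (P : X → Prop) : Cardinal.{u} :=
  #{C : Set X | ∃ x, P x ∧ C = component a x}

/-- The number of cycles of `a` with exactly `k` points. -/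
noncomputable def cycles (a : X ≃. X) (k : ℕ) : Cardinal.{u} :=
  numComp a fun x => 0 < k ∧ Steps a k x x ∧ ∀ j, 0 < j → j < k → ¬ Steps a j x x

/-- The number of double rays of `a` (components that are infinite in both directions). -/
noncomputable def doubleRays (a : X ≃. X) : Cardinal.{u} :=
  numComp a fun x => (∀ n, ∃ y, Steps a n x y) ∧ (∀ n, ∃ y, Steps a n y x) ∧
    ∀ n, 0 < n → ¬ Steps a n x x

/-- The number of right rays of `a`: components with a first point (a point outside the image)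
and infinite in the forward direction. -/
noncomputable def rightRays (a : X ≃. X) : Cardinal.{u} :=
  numComp a fun x => (∀ n, ∃ y, Steps a n x y) ∧ ∀ z, a z ≠ some x

/-- The number of left rays of `a`: components with a last point (a point outside the domain)
and infinite in the backward direction. -/
noncomputable def leftRays (a : X ≃. X) : Cardinal.{u} :=
  numComp a fun x => a x = none ∧ ∀ n, ∃ y, Steps a n y x

/-- The number of finite chains of `a` with at least `i` and at most `j` points (`1 ≤ i`);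
`x` is the last point of the chain. -/
noncomputable def chains (a : X ≃. X) (i j : ℕ) : Cardinal.{u} :=
  numComp a fun x => a x = none ∧ (∃ y, Steps a (i - 1) y x) ∧ ¬ ∃ y, Steps a j y x

/-- The number of finite chains of `a` with at least `n` points (`1 ≤ n`). -/
noncomputable def longChains (a : X ≃. X) (n : ℕ) : Cardinal.{u} :=
  numComp a fun x => a x = none ∧ (∃ y, Steps a (n - 1) y x) ∧ ¬ ∀ m, ∃ y, Steps a m y x

open Pool.Agent.X172.IX in
theorem Steps_iff (a : X ≃. X) (n : ℕ) (x y : X) : Steps a n x y ↔ RI (rel a) n x y := by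
  induction n generalizing x with
  | zero => exact Iff.rfl
  | succ n ih =>
    constructor
    · rintro ⟨z, h1, h2⟩
      exact ⟨z, h1, (ih z).1 h2⟩
    · rintro ⟨z, h1, h2⟩
      exact ⟨z, h1, (ih z).2 h2⟩

open Pool.Agent.X172.IX in
theorem component_eq (a : X ≃. X) (x : X) : component a x = comp (rel a) x := by
  ext y
  constructor
  · rintro ⟨n, h⟩
    rw [Steps_iff, Steps_iff] at h
    exact ⟨n, h⟩
  · rintro ⟨n, h⟩
    refine ⟨n, ?_⟩
    rw [Steps_iff, Steps_iff]
    exact h

open Pool.Agent.X172.IX in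
theorem numComp_eq (a : X ≃. X) {P Q : X → Prop} (h : ∀ x, P x ↔ Q x) :
    numComp a P = NC (rel a) Q := by
  have e : P = Q := funext fun x => propext (h x)
  subst e
  unfold numComp NC
  simp only [component_eq]

open Pool.Agent.X172.IX in
theorem none_iff (a : X ≃. X) (x : X) : a x = none ↔ Te (rel a) x := by
  constructor
  · intro h z hz
    have hz' : a x = some z := hz
    rw [h] at hz'
    cases hz'
  · intro h
    cases h1 : a x with
    | none => rfl
    | some z => exact absurd h1 (h z)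

theorem bot_none (x : X) : (⊥ : X ≃. X) x = none := rfl

theorem ne_bot_iff (a : X ≃. X) : a ≠ ⊥ ↔ ∃ x y, a x = some y := by
  constructor
  · intro h
    by_contra hc
    apply h
    apply PEquiv.ext
    intro x
    rw [bot_none]
    cases h1 : a x with
    | none => rfl
    | some y => exact absurd ⟨x, y, h1⟩ hc
  · rintro ⟨x, y, h⟩ hc
    rw [hc, bot_none] at h
    cases h

open Pool.Agent.X172.IX in
theorem mem_PP {a g : X ≃. X} (ha : a ≠ ⊥) :
    g ∈ PP a ↔ ∀ x y, a x = some y → ∃ z, g y = some z := by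
  classical
  constructor
  · rintro (⟨h, _⟩ | ⟨_, h⟩) x y hx
    · exact absurd h ha
    · have h1 : (PEquiv.single x x).trans a ≠ ⊥ := by
        rw [ne_bot_iff]
        exact ⟨x, y, (trans_some _ _ _ _).2 ⟨x, PEquiv.single_apply x x, hx⟩⟩
      obtain ⟨x', z, hz⟩ := (ne_bot_iff _).1 (h _ h1)
      obtain ⟨y', h3, h4⟩ := (trans_some _ _ _ _).1 hz
      obtain ⟨w, h5, h6⟩ := (trans_some _ _ _ _).1 h3
      have hw : w = x := by
        by_cases hxx : x' = x
        · subst hxx
          rw [PEquiv.single_apply] at h5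
          exact (Option.some.inj h5).symm
        · rw [PEquiv.single_apply_of_ne (Ne.symm hxx)] at h5
          cases h5
      subst hw
      rw [hx] at h6
      rw [Option.some.inj h6]
      exact ⟨z, h4⟩
  · intro h
    refine Or.inr ⟨ha, fun m hm => ?_⟩
    obtain ⟨x, y, hxy⟩ := (ne_bot_iff _).1 hm
    obtain ⟨w, _, h2⟩ := (trans_some _ _ _ _).1 hxy
    obtain ⟨z, hz⟩ := h w y h2
    exact (ne_bot_iff _).2 ⟨x, z, (trans_some _ _ _ _).2 ⟨y, hxy, hz⟩⟩

theorem half_iff (a b : X ≃. X) : (∃ g ∈ PP1 a, a.trans g = g.trans b) ↔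
    ∃ g : X ≃. X, a.trans g = g.trans b ∧ ∀ x y, a x = some y → ∃ z, g y = some z := by
  by_cases ha : a = ⊥
  · subst ha
    constructor
    · intro _
      refine ⟨⊥, ?_, fun x y h => by cases h⟩
      rw [PEquiv.bot_trans, PEquiv.bot_trans]
    · intro _
      refine ⟨⊥, Or.inl (Or.inl ⟨rfl, rfl⟩), ?_⟩
      rw [PEquiv.bot_trans, PEquiv.bot_trans]
  · constructor
    · rintro ⟨g, hg | hg, h⟩
      · exact ⟨g, h, (mem_PP ha).1 hg⟩
      · refine ⟨g, h, fun x y _ => ⟨y, ?_⟩⟩
        rw [Set.mem_singleton_iff.1 hg]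
        rfl
    · rintro ⟨g, h, hg⟩
      exact ⟨g, Or.inl ((mem_PP ha).2 hg), h⟩

theorem CConj_iff (a b : X ≃. X) : CConj a b ↔
    (∃ g : X ≃. X, a.trans g = g.trans b ∧ ∀ x y, a x = some y → ∃ z, g y = some z) ∧
      (∃ h : X ≃. X, b.trans h = h.trans a ∧ ∀ x y, b x = some y → ∃ z, h y = some z) := by
  rw [← half_iff, ← half_iff]
  constructor
  · rintro ⟨g, hg, h, hh, h1, h2⟩
    exact ⟨⟨g, hg, h1⟩, ⟨h, hh, h2⟩⟩
  · rintro ⟨⟨g, hg, h1⟩, ⟨h, hh, h2⟩⟩
    exact ⟨g, hg, h, hh, h1, h2⟩

open Pool.Agent.X172.IX in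
theorem cycles_eq (a : X ≃. X) (k : ℕ) : cycles a k = NC (rel a) (Cy (rel a) k) := by
  refine numComp_eq a fun x => ?_
  simp only [Steps_iff]
  exact Iff.rfl

open Pool.Agent.X172.IX in
theorem doubleRays_eq (a : X ≃. X) : doubleRays a =
    NC (rel a) (fun x => Fw (rel a) x ∧ Bw (rel a) x ∧ Ap (rel a) x) := by
  refine numComp_eq a fun x => ?_
  simp only [Steps_iff]
  exact Iff.rfl

open Pool.Agent.X172.IX in
theorem rightRays_eq (a : X ≃. X) : rightRays a =
    NC (rel a) (fun x => Fw (rel a) x ∧ In (rel a) x) := by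
  refine numComp_eq a fun x => ?_
  simp only [Steps_iff]
  exact Iff.rfl

open Pool.Agent.X172.IX in
theorem leftRays_eq (a : X ≃. X) : leftRays a =
    NC (rel a) (fun x => Te (rel a) x ∧ Bw (rel a) x) := by
  refine numComp_eq a fun x => ?_
  simp only [Steps_iff, none_iff]
  exact Iff.rfl

open Pool.Agent.X172.IX in
theorem chains_eq (a : X ≃. X) (i j : ℕ) : chains a i j =
    NC (rel a) (fun x => Te (rel a) x ∧ bw (rel a) (i - 1) x ∧ ¬ bw (rel a) j x) := by
  refine numComp_eq a fun x => ?_
  simp only [Steps_iff, none_iff]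
  exact Iff.rfl

open Pool.Agent.X172.IX in
theorem longChains_eq (a : X ≃. X) (n : ℕ) : longChains a n =
    NC (rel a) (fun x => Te (rel a) x ∧ bw (rel a) (n - 1) x ∧ ¬ Bw (rel a) x) := by
  refine numComp_eq a fun x => ?_
  simp only [Steps_iff, none_iff]
  exact Iff.rfl

end Pool.Agent.X172.SIM
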