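import Pool.Agent.X172.IX.Num
import Pool.Agent.X172.IX.Card2
import Pool.Agent.X172.IX.Match

set_option autoImplicit false
open Cardinal

namespace Pool.Agent.X172.IX

universe u
variable {X : Type u} {A B U M : X → X → Prop}

abbrev CS (A : X → X → Prop) (P : X → Prop) : Type u := ↥{C : Set X | ∃ x, P x ∧ C = comp A x}

theorem NC_eq (A : X → X → Prop) (P : X → Prop) : NC A P = #(CS A P) := rfl

theorem fam (hA : PInj A) (hB : PInj B) {P P' : X → Prop} (J : CS A P → CS B P')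
    (hJ : Function.Injective J) : ∃ F : X → X → Prop,
    (∀ x y, F x y → P x ∧ P' y ∧ ∃ C : CS A P, C.1 = comp A x ∧ (J C).1 = comp B y) ∧
    (∀ x y x' y', F x y → F x' y' → conn A x x' → x = x' ∧ y = y') ∧
    (∀ x y x' y', F x y → F x' y' → conn B y y' → x = x' ∧ y = y') ∧
    (∀ z, P z → ∃ x y, F x y ∧ conn A x z) ∧
    (Function.Surjective J → ∀ w, P' w → ∃ x y, F x y ∧ conn B y w) := by
  have h1 : ∀ C : CS A P, ∃ x, P x ∧ C.1 = comp A x := fun C => C.2
  have h2 : ∀ C : CS B P', ∃ x, P' x ∧ C.1 = comp B x := fun C => C.2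
  choose pa ha1 ha2 using h1
  choose pb hb1 hb2 using h2
  refine ⟨fun x y => ∃ C, x = pa C ∧ y = pb (J C), ?_, ?_, ?_, ?_, ?_⟩
  · rintro x y ⟨C, rfl, rfl⟩
    exact ⟨ha1 C, hb1 _, C, ha2 C, hb2 _⟩
  · rintro x y x' y' ⟨C, rfl, rfl⟩ ⟨C', rfl, rfl⟩ h
    have : C = C' := by
      apply Subtype.ext
      rw [ha2 C, ha2 C']
      exact (comp_eq hA).2 h
    subst this
    exact ⟨rfl, rfl⟩
  · rintro x y x' y' ⟨C, rfl, rfl⟩ ⟨C', rfl, rfl⟩ h
    have : C = C' := by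
      apply hJ
      apply Subtype.ext
      rw [hb2 (J C), hb2 (J C')]
      exact (comp_eq hB).2 h
    subst this
    exact ⟨rfl, rfl⟩
  · intro z hz
    refine ⟨_, _, ⟨⟨comp A z, z, hz, rfl⟩, rfl, rfl⟩, ?_⟩
    exact (comp_eq hA).1 (ha2 ⟨comp A z, z, hz, rfl⟩).symm
  · intro hs w hw
    obtain ⟨C, hC⟩ := hs ⟨comp B w, w, hw, rfl⟩
    refine ⟨_, _, ⟨C, rfl, rfl⟩, ?_⟩
    have := hb2 (J C)
    rw [hC] at this
    rw [hC]
    exact (comp_eq hB).1 this.symm

theorem mk_sub (hA : PInj A) {P T : X → Prop} :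
    #{C : CS A P | ∃ x, P x ∧ T x ∧ C.1 = comp A x} = NC A (fun x => P x ∧ T x) := by
  have _ := hA
  apply le_antisymm
  · refine mk_le_of_injective (f := fun C => ⟨C.1.1, ?_⟩) ?_
    · obtain ⟨x, h1, h2, h3⟩ := C.2
      exact ⟨x, ⟨h1, h2⟩, h3⟩
    · intro C C' h
      have := congrArg Subtype.val h
      exact Subtype.ext (Subtype.ext this)
  · refine mk_le_of_injective (f := fun C => ⟨⟨C.1, ?_⟩, ?_⟩) ?_
    · obtain ⟨x, h1, h3⟩ := C.2
      exact ⟨x, h1.1, h3⟩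
    · obtain ⟨x, h1, h3⟩ := C.2
      exact ⟨x, h1.1, h1.2, h3⟩
    · intro C C' h
      have := congrArg (fun D => D.1.1) h
      exact Subtype.ext this

theorem ranked (hA : PInj A) (hB : PInj B) (P P' : X → Prop) (T T' : ℕ → X → Prop)
    (hT0 : ∀ x, P x → T 0 x) (hmono : ∀ m n x, m ≤ n → T n x → T m x)
    (hmono' : ∀ m n x, m ≤ n → T' n x → T' m x)
    (hinv : ∀ n x y, P x → P y → conn A x y → T n x → T n y)
    (hinv' : ∀ n x y, P' x → P' y → conn B x y → T' n x → T' n y)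
    (hcard : ∀ n, NC A (fun x => P x ∧ T n x) ≤ NC B (fun x => P' x ∧ T' n x))
    (hcardi : NC A (fun x => P x ∧ ∀ n, T n x) ≤ NC B (fun x => P' x ∧ ∀ n, T' n x)) :
    ∃ F : X → X → Prop, (∀ x y, F x y → P x ∧ P' y ∧ ∀ n, T n x → T' n y) ∧
    (∀ x y x' y', F x y → F x' y' → conn A x x' → x = x' ∧ y = y') ∧
    (∀ x y x' y', F x y → F x' y' → conn B y y' → x = x' ∧ y = y') ∧
    (∀ z, P z → ∃ x y, F x y ∧ conn A x z) := by
  let p : ℕ → Set (CS A P) := fun n => {C | ∃ x, P x ∧ T n x ∧ C.1 = comp A x}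
  let q : ℕ → Set (CS B P') := fun n => {C | ∃ x, P' x ∧ T' n x ∧ C.1 = comp B x}
  have hpinter : (⋂ n, p n) = {C : CS A P | ∃ x, P x ∧ (∀ n, T n x) ∧ C.1 = comp A x} := by
    ext C
    rw [Set.mem_iInter]
    constructor
    · intro h
      obtain ⟨x, h1, _, h3⟩ := h 0
      refine ⟨x, h1, fun n => ?_, h3⟩
      obtain ⟨y, h4, h5, h6⟩ := h n
      exact hinv n y x h4 h1 ((comp_eq hA).1 (h6.symm.trans h3)) h5
    · rintro ⟨x, h1, h2, h3⟩ n
      exact ⟨x, h1, h2 n, h3⟩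
  have hqinter : (⋂ n, q n) = {C : CS B P' | ∃ x, P' x ∧ (∀ n, T' n x) ∧ C.1 = comp B x} := by
    ext C
    rw [Set.mem_iInter]
    constructor
    · intro h
      obtain ⟨x, h1, _, h3⟩ := h 0
      refine ⟨x, h1, fun n => ?_, h3⟩
      obtain ⟨y, h4, h5, h6⟩ := h n
      exact hinv' n y x h4 h1 ((comp_eq hB).1 (h6.symm.trans h3)) h5
    · rintro ⟨x, h1, h2, h3⟩ n
      exact ⟨x, h1, h2 n, h3⟩
  obtain ⟨f, hf1, hf2⟩ := rank_inj p q
    (by
      intro m n hmn C hC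
      obtain ⟨x, h1, h2, h3⟩ := hC
      exact ⟨x, h1, hmono m n x hmn h2, h3⟩)
    (by
      intro m n hmn C hC
      obtain ⟨x, h1, h2, h3⟩ := hC
      exact ⟨x, h1, hmono' m n x hmn h2, h3⟩)
    (by
      ext C
      refine ⟨fun _ => Set.mem_univ _, fun _ => ?_⟩
      obtain ⟨x, h1, h2⟩ := C.2
      exact ⟨x, h1, hT0 x h1, h2⟩)
    (fun n => by
      have := hcard n
      rw [← mk_sub hA, ← mk_sub hB] at this
      exact this)
    (by
      rw [hpinter, hqinter, mk_sub hA, mk_sub hB]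
      exact hcardi)
  obtain ⟨F, h1, h2, h3, h4, _⟩ := fam hA hB f hf1
  refine ⟨F, fun x y hxy => ?_, h2, h3, h4⟩
  obtain ⟨h5, h6, C, h7, h8⟩ := h1 x y hxy
  refine ⟨h5, h6, fun n hn => ?_⟩
  obtain ⟨y', h9, h10, h11⟩ := hf2 C n ⟨x, h5, hn, h7⟩
  exact hinv' n y' y h9 h6 ((comp_eq hB).1 (h11.symm.trans h8)) h10

theorem union_good {ι : Type} (F : ι → X → X → Prop) (K K' : ι → X → Prop)
    (hK : ∀ i x y, conn A x y → K i x → K i y) (hK' : ∀ i x y, conn B x y → K' i x → K' i y)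
    (hex : ∀ i j x, K i x → K j x → i = j) (hex' : ∀ i j x, K' i x → K' j x → i = j)
    (hF : ∀ i x y, F i x y → K i x ∧ K' i y)
    (ha : ∀ i x y x' y', F i x y → F i x' y' → conn A x x' → x = x' ∧ y = y')
    (hb : ∀ i x y x' y', F i x y → F i x' y' → conn B y y' → x = x' ∧ y = y') :
    (∀ x y x' y', (∃ i, F i x y) → (∃ i, F i x' y') → conn A x x' → x = x' ∧ y = y') ∧
    (∀ x y x' y', (∃ i, F i x y) → (∃ i, F i x' y') → conn B y y' → x = x' ∧ y = y') := by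
  constructor
  · rintro x y x' y' ⟨i, hi⟩ ⟨j, hj⟩ h
    have : i = j := hex i j x' (hK i x x' h (hF i x y hi).1) (hF j x' y' hj).1
    subst this
    exact ha i x y x' y' hi hj h
  · rintro x y x' y' ⟨i, hi⟩ ⟨j, hj⟩ h
    have : i = j := hex' i j y' (hK' i y y' h (hF i x y hi).2) (hF j x' y' hj).2
    subst this
    exact hb i x y x' y' hi hj h

inductive Kd
  | cyc (k : ℕ) | a | b | c | d

/-- kinds for the first question -/
def K1 (A : X → X → Prop) : Kd → X → Prop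
  | .cyc k, x => Cy A k x
  | .a, x => Fw A x ∧ Ap A x
  | .b, x => ¬ Fw A x
  | .c, _ => False
  | .d, _ => False

theorem K1_conn (hA : PInj A) (i : Kd) (x y : X) (h : conn A x y) (hx : K1 A i x) : K1 A i y := by
  cases i with
  | cyc k => exact Cy_conn hA h hx
  | a => exact ⟨Fw_conn hA h hx.1, Ap_conn hA h hx.2⟩
  | b => exact fun hc => hx (Fw_conn hA (conn_symm h) hc)
  | c => exact hx
  | d => exact hx

theorem K1_ex (hA : PInj A) (i j : Kd) (x : X) (h : K1 A i x) (h' : K1 A j x) : i = j := by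
  cases i <;> cases j <;> simp only [K1] at h h' <;>
    first
    | rfl
    | exact congrArg Kd.cyc (Cy_unique hA h h')
    | exact absurd h.2.1 (h'.2 _ h.1)
    | exact absurd h'.2.1 (h.2 _ h'.1)
    | exact absurd (Cy_Fw h) h'
    | exact absurd (Cy_Fw h') h
    | exact absurd h.1 h'
    | exact absurd h'.1 h

theorem per_Cy (hA : PInj A) (hB : PInj B) {k : ℕ} {x y : X} (hx : Cy A k x) (hy : Cy B k y)
    (n : ℕ) : RI A n x x ↔ RI B n y y := by rw [Cy_dvd hA hx, Cy_dvd hB hy]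

theorem per_Ap {x y : X} (hx : Ap A x) (hy : Ap B y) (n : ℕ) : RI A n x x ↔ RI B n y y := by
  cases n with
  | zero => exact ⟨fun _ => rfl, fun _ => rfl⟩
  | succ n => exact ⟨fun h => absurd h (hx _ (Nat.succ_pos n)), fun h => absurd h (hy _ (Nat.succ_pos n))⟩

theorem c_suff (hA : PInj A) (hB : PInj B)
    (hcyc : ∀ k, 0 < k → NC A (Cy A k) ≤ NC B (Cy B k))
    (hd : NC A (fun x => Fw A x ∧ Bw A x ∧ Ap A x) ≤ NC B (fun x => Fw B x ∧ Bw B x ∧ Ap B x))
    (hrd : NC A (fun x => Fw A x ∧ Ap A x ∧ (Bw A x ∨ In A x)) ≤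
      NC B (fun x => Fw B x ∧ Ap B x ∧ (Bw B x ∨ In B x)))
    (hl : NC A (fun x => Te A x ∧ Bw A x) ≤ NC B (fun x => Te B x ∧ Bw B x))
    (hen : ∀ n, 0 < n → NC A (fun x => Te A x ∧ bw A n x) ≤ NC B (fun x => Te B x ∧ bw B n x)) :
    ∃ U : X → X → Prop, PInj U ∧ Int A B U ∧ (∀ z z', A z z' → ∃ w, U z w) ∧
      (∀ z z', A z z' → ∃ w, U z' w) := by
  classical
  -- cycles
  have hcyc' : ∀ k, ∃ F : X → X → Prop, (∀ x y, F x y → Cy A k x ∧ Cy B k y) ∧
      (∀ x y x' y', F x y → F x' y' → conn A x x' → x = x' ∧ y = y') ∧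
      (∀ x y x' y', F x y → F x' y' → conn B y y' → x = x' ∧ y = y') ∧
      (∀ z, Cy A k z → ∃ x y, F x y ∧ conn A x z) := by
    intro k
    by_cases hk : 0 < k
    · obtain ⟨J⟩ := hcyc k hk
      obtain ⟨F, h1, h2, h3, h4, _⟩ := fam hA hB J J.injective
      exact ⟨F, fun x y h => ⟨(h1 x y h).1, (h1 x y h).2.1⟩, h2, h3, h4⟩
    · exact ⟨fun _ _ => False, fun _ _ h => h.elim, fun _ _ _ _ h => h.elim,
        fun _ _ _ _ h => h.elim, fun z hz => absurd hz.1 hk⟩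
  choose Fc hc1 hc2 hc3 hc4 using hcyc'
  -- right rays and double rays
  obtain ⟨Fa, ha1, ha2, ha3, ha4⟩ := ranked hA hB
    (fun x => Fw A x ∧ Ap A x ∧ (Bw A x ∨ In A x)) (fun x => Fw B x ∧ Ap B x ∧ (Bw B x ∨ In B x))
    (fun n x => n = 0 ∨ Bw A x) (fun n x => n = 0 ∨ Bw B x)
    (fun x _ => Or.inl rfl)
    (fun m n x h1 h2 => by
      rcases h2 with rfl | h2
      · left; omega
      · exact Or.inr h2)
    (fun m n x h1 h2 => by
      rcases h2 with rfl | h2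
      · left; omega
      · exact Or.inr h2)
    (fun n x y _ _ h h1 => h1.imp id (Bw_conn hA h))
    (fun n x y _ _ h h1 => h1.imp id (Bw_conn hB h))
    (by
      intro n
      rcases Nat.eq_zero_or_pos n with rfl | hn
      · have e1 : (fun x => (Fw A x ∧ Ap A x ∧ (Bw A x ∨ In A x)) ∧ (0 = 0 ∨ Bw A x)) =
            fun x => (Fw A x ∧ Ap A x ∧ (Bw A x ∨ In A x)) := by ext x; simp
        have e2 : (fun x => (Fw B x ∧ Ap B x ∧ (Bw B x ∨ In B x)) ∧ (0 = 0 ∨ Bw B x)) =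
            fun x => (Fw B x ∧ Ap B x ∧ (Bw B x ∨ In B x)) := by ext x; simp
        rw [e1, e2]; exact hrd
      · have e1 : (fun x => (Fw A x ∧ Ap A x ∧ (Bw A x ∨ In A x)) ∧ (n = 0 ∨ Bw A x)) =
            fun x => Fw A x ∧ Bw A x ∧ Ap A x := by
          ext x
          have : n ≠ 0 := by omega
          tauto
        have e2 : (fun x => (Fw B x ∧ Ap B x ∧ (Bw B x ∨ In B x)) ∧ (n = 0 ∨ Bw B x)) =
            fun x => Fw B x ∧ Bw B x ∧ Ap B x := by
          ext x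
          have : n ≠ 0 := by omega
          tauto
        rw [e1, e2]; exact hd)
    (by
      have e1 : (fun x => (Fw A x ∧ Ap A x ∧ (Bw A x ∨ In A x)) ∧ ∀ n : ℕ, (n = 0 ∨ Bw A x)) =
          fun x => Fw A x ∧ Bw A x ∧ Ap A x := by
        ext x
        constructor
        · rintro ⟨h1, h2⟩
          have := h2 1
          simp at this
          exact ⟨h1.1, this, h1.2.1⟩
        · rintro ⟨h1, h2, h3⟩
          exact ⟨⟨h1, h3, Or.inl h2⟩, fun _ => Or.inr h2⟩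
      have e2 : (fun x => (Fw B x ∧ Ap B x ∧ (Bw B x ∨ In B x)) ∧ ∀ n : ℕ, (n = 0 ∨ Bw B x)) =
          fun x => Fw B x ∧ Bw B x ∧ Ap B x := by
        ext x
        constructor
        · rintro ⟨h1, h2⟩
          have := h2 1
          simp at this
          exact ⟨h1.1, this, h1.2.1⟩
        · rintro ⟨h1, h2, h3⟩
          exact ⟨⟨h1, h3, Or.inl h2⟩, fun _ => Or.inr h2⟩
      rw [e1, e2]; exact hd)
  -- left rays and finite chains
  obtain ⟨Fb, hb1, hb2, hb3, hb4⟩ := ranked hA hB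
    (fun x => Te A x ∧ bw A 1 x) (fun x => Te B x ∧ bw B 1 x)
    (fun n x => bw A n x) (fun n x => bw B n x)
    (fun x _ => ⟨x, rfl⟩)
    (fun m n x h1 h2 => bw_mono h1 h2) (fun m n x h1 h2 => bw_mono h1 h2)
    (fun n x y hx hy h h1 => by rwa [← term_unique hA hx.1 hy.1 h])
    (fun n x y hx hy h h1 => by rwa [← term_unique hB hx.1 hy.1 h])
    (by
      intro n
      rcases Nat.eq_zero_or_pos n with rfl | hn
      · have e1 : (fun x => (Te A x ∧ bw A 1 x) ∧ bw A 0 x) = fun x => Te A x ∧ bw A 1 x := by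
          ext x
          exact ⟨fun h => h.1, fun h => ⟨h, x, rfl⟩⟩
        have e2 : (fun x => (Te B x ∧ bw B 1 x) ∧ bw B 0 x) = fun x => Te B x ∧ bw B 1 x := by
          ext x
          exact ⟨fun h => h.1, fun h => ⟨h, x, rfl⟩⟩
        rw [e1, e2]; exact hen 1 one_pos
      · have e1 : (fun x => (Te A x ∧ bw A 1 x) ∧ bw A n x) = fun x => Te A x ∧ bw A n x := by
          ext x
          exact ⟨fun h => ⟨h.1.1, h.2⟩, fun h => ⟨⟨h.1, bw_mono hn h.2⟩, h.2⟩⟩
        have e2 : (fun x => (Te B x ∧ bw B 1 x) ∧ bw B n x) = fun x => Te B x ∧ bw B n x := by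
          ext x
          exact ⟨fun h => ⟨h.1.1, h.2⟩, fun h => ⟨⟨h.1, bw_mono hn h.2⟩, h.2⟩⟩
        rw [e1, e2]; exact hen n hn)
    (by
      have e1 : (fun x => (Te A x ∧ bw A 1 x) ∧ ∀ n, bw A n x) = fun x => Te A x ∧ Bw A x := by
        ext x
        exact ⟨fun h => ⟨h.1.1, h.2⟩, fun h => ⟨⟨h.1, h.2 1⟩, h.2⟩⟩
      have e2 : (fun x => (Te B x ∧ bw B 1 x) ∧ ∀ n, bw B n x) = fun x => Te B x ∧ Bw B x := by
        ext x
        exact ⟨fun h => ⟨h.1.1, h.2⟩, fun h => ⟨⟨h.1, h.2 1⟩, h.2⟩⟩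
      rw [e1, e2]; exact hl)
  let F : Kd → X → X → Prop := fun i => match i with
    | .cyc k => Fc k
    | .a => Fa
    | .b => Fb
    | .c => fun _ _ => False
    | .d => fun _ _ => False
  have hF : ∀ i x y, F i x y → K1 A i x ∧ K1 B i y := by
    intro i x y h
    cases i with
    | cyc k => exact hc1 k x y h
    | a =>
      obtain ⟨h1, h2, _⟩ := ha1 x y h
      exact ⟨⟨h1.1, h1.2.1⟩, ⟨h2.1, h2.2.1⟩⟩
    | b =>
      obtain ⟨h1, h2, _⟩ := hb1 x y h
      refine ⟨fun hc => ?_, fun hc => ?_⟩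
      · obtain ⟨z, hz⟩ := Fw_dom hc
        exact h1.1 z hz
      · obtain ⟨z, hz⟩ := Fw_dom hc
        exact h2.1 z hz
    | c => exact h.elim
    | d => exact h.elim
  obtain ⟨gA, gB⟩ := union_good (A := A) (B := B) F (K1 A) (K1 B) (K1_conn hA) (K1_conn hB)
    (K1_ex hA) (K1_ex hB) hF
    (by
      intro i
      cases i with
      | cyc k => exact hc2 k
      | a => exact ha2
      | b => exact hb2
      | c => exact fun _ _ _ _ h => h.elim
      | d => exact fun _ _ _ _ h => h.elim)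
    (by
      intro i
      cases i with
      | cyc k => exact hc3 k
      | a => exact ha3
      | b => exact hb3
      | c => exact fun _ _ _ _ h => h.elim
      | d => exact fun _ _ _ _ h => h.elim)
  have hM : GoodM A B (fun x y => ∃ i, F i x y) := by
    refine ⟨gA, gB, ?_, ?_, ?_⟩
    · rintro x y ⟨i, h⟩ n
      cases i with
      | cyc k => exact per_Cy hA hB (hc1 k x y h).1 (hc1 k x y h).2 n
      | a => exact per_Ap (ha1 x y h).1.2.1 (ha1 x y h).2.1.2.1 n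
      | b => exact per_Ap (Te_Ap (hb1 x y h).1.1) (Te_Ap (hb1 x y h).2.1.1) n
      | c => exact h.elim
      | d => exact h.elim
    · rintro x y ⟨i, h⟩ n hn
      cases i with
      | cyc k => exact Cy_Bw (hc1 k x y h).2 n
      | a =>
        obtain ⟨h1, h2, h3⟩ := ha1 x y h
        rcases h1.2.2 with h4 | h4
        · rcases h3 1 (Or.inr h4) with h5 | h5
          · exact absurd h5 one_ne_zero
          · exact h5 n
        · have := In_bw h4 hn
          subst this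
          exact ⟨y, rfl⟩
      | b => exact (hb1 x y h).2.2 n hn
      | c => exact h.elim
      | d => exact h.elim
    · rintro x y ⟨i, h⟩ n hn
      cases i with
      | cyc k => exact Cy_Fw (hc1 k x y h).1 n
      | a => exact (ha1 x y h).1.1 n
      | b =>
        have := Te_fw (hb1 x y h).2.1.1 hn
        subst this
        exact ⟨x, rfl⟩
      | c => exact h.elim
      | d => exact h.elim
  have hfw : ∀ x y, (∃ i, F i x y) → ∀ n, fw A n x → fw B n y := by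
    rintro x y ⟨i, h⟩ n hn
    cases i with
    | cyc k => exact Cy_Fw (hc1 k x y h).2 n
    | a => exact (ha1 x y h).2.1.1 n
    | b =>
      have := Te_fw (hb1 x y h).1.1 hn
      subst this
      exact ⟨y, rfl⟩
    | c => exact h.elim
    | d => exact h.elim
  have hcov : ∀ z, ((∃ z', A z z') ∨ ∃ z', A z' z) → ∃ x y, (∃ i, F i x y) ∧ conn A x z := by
    intro z hz
    rcases Cy_or_Ap (A := A) z with ⟨k, hk⟩ | hap
    · obtain ⟨x, y, h1, h2⟩ := hc4 k z hk
      exact ⟨x, y, ⟨.cyc k, h1⟩, h2⟩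
    · by_cases hfw : Fw A z
      · obtain ⟨t, ht1, ht2⟩ := exists_pt (A := A) z
        obtain ⟨x, y, h1, h2⟩ := ha4 t ⟨Fw_conn hA ht1 hfw, Ap_conn hA ht1 hap, ht2⟩
        exact ⟨x, y, ⟨.a, h1⟩, conn_trans hA h2 (conn_symm ht1)⟩
      · obtain ⟨n, t, ht1, ht2⟩ := exists_term z hfw
        have h1 : bw A 1 t := by
          cases n with
          | zero =>
            have e : z = t := ht1
            subst e
            rcases hz with ⟨z', h⟩ | ⟨z', h⟩
            · exact absurd h (ht2 z')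
            · exact ⟨z', z, h, rfl⟩
          | succ n => exact bw_mono (n := n + 1) (by omega) ⟨z, ht1⟩
        obtain ⟨x, y, h2, h3⟩ := hb4 t ⟨ht2, h1⟩
        exact ⟨x, y, ⟨.b, h2⟩, conn_trans hA h3 ⟨n, Or.inr ht1⟩⟩
  have hdom : ∀ z, ((∃ z', A z z') ∨ ∃ z', A z' z) →
      ∃ w, Glue A B (fun x y => ∃ i, F i x y) z w := by
    intro z hz
    obtain ⟨x, y, h1, n, h2 | h2⟩ := hcov z hz
    · obtain ⟨w, hw⟩ := hfw x y h1 n ⟨z, h2⟩
      exact ⟨w, x, y, h1, n, Or.inl ⟨h2, hw⟩⟩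
    · obtain ⟨w, hw⟩ := hM.bwd x y h1 n ⟨z, h2⟩
      exact ⟨w, x, y, h1, n, Or.inr ⟨h2, hw⟩⟩
  exact ⟨Glue A B (fun x y => ∃ i, F i x y), hM.pinj hA hB, ⟨glue_inter hA hB hM⟩,
    fun z z' h => hdom z (Or.inl ⟨z', h⟩), fun z z' h => hdom z' (Or.inr ⟨z, h⟩)⟩

end Pool.Agent.X172.IX
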