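import Pool.Agent.X172.IX.Suff

set_option autoImplicit false
open Cardinal

namespace Pool.Agent.X172.IX

universe u
variable {X : Type u} {A B U M : X → X → Prop}

/-- kinds for the second question -/
def K2 (A : X → X → Prop) : Kd → X → Prop
  | .cyc k, x => Cy A k x
  | .a, x => Fw A x ∧ Bw A x ∧ Ap A x
  | .b, x => Fw A x ∧ ¬ Bw A x
  | .c, x => ¬ Fw A x ∧ Bw A x
  | .d, x => ¬ Fw A x ∧ ¬ Bw A x

theorem K2_conn (hA : PInj A) (i : Kd) (x y : X) (h : conn A x y) (hx : K2 A i x) : K2 A i y := by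
  have h1 : ¬ Fw A x → ¬ Fw A y := fun h2 hc => h2 (Fw_conn hA (conn_symm h) hc)
  have h3 : ¬ Bw A x → ¬ Bw A y := fun h2 hc => h2 (Bw_conn hA (conn_symm h) hc)
  cases i with
  | cyc k => exact Cy_conn hA h hx
  | a => exact ⟨Fw_conn hA h hx.1, Bw_conn hA h hx.2.1, Ap_conn hA h hx.2.2⟩
  | b => exact ⟨Fw_conn hA h hx.1, h3 hx.2⟩
  | c => exact ⟨h1 hx.1, Bw_conn hA h hx.2⟩
  | d => exact ⟨h1 hx.1, h3 hx.2⟩

theorem K2_ex (hA : PInj A) (i j : Kd) (x : X) (h : K2 A i x) (h' : K2 A j x) : i = j := by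
  cases i <;> cases j <;> simp only [K2] at h h' <;>
    first
    | rfl
    | exact congrArg Kd.cyc (Cy_unique hA h h')
    | exact absurd h.2.1 (h'.2.2 _ h.1)
    | exact absurd h'.2.1 (h.2.2 _ h'.1)
    | exact absurd (Cy_Fw h) h'.1
    | exact absurd (Cy_Fw h') h.1
    | exact absurd (Cy_Bw h) h'.2
    | exact absurd (Cy_Bw h') h.2
    | exact absurd h.1 h'.1
    | exact absurd h'.1 h.1
    | exact absurd h.2 h'.2
    | exact absurd h'.2 h.2
    | exact absurd h.2.1 h'.2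
    | exact absurd h'.2.1 h.2

theorem fam_eq (hA : PInj A) (hB : PInj B) {P P' : X → Prop} (h : NC A P = NC B P') :
    ∃ F : X → X → Prop, (∀ x y, F x y → P x ∧ P' y) ∧
    (∀ x y x' y', F x y → F x' y' → conn A x x' → x = x' ∧ y = y') ∧
    (∀ x y x' y', F x y → F x' y' → conn B y y' → x = x' ∧ y = y') ∧
    (∀ z, P z → ∃ x y, F x y ∧ conn A x z) ∧ (∀ w, P' w → ∃ x y, F x y ∧ conn B y w) := by
  obtain ⟨J⟩ := Cardinal.eq.1 h
  obtain ⟨F, h1, h2, h3, h4, h5⟩ := fam hA hB (P := P) (P' := P') J J.injective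
  exact ⟨F, fun x y h => ⟨(h1 x y h).1, (h1 x y h).2.1⟩, h2, h3, h4, h5 J.surjective⟩

theorem card_rank (hA : PInj A) (r : {x // Te A x ∧ ¬ Bw A x} → ℕ)
    (hr : ∀ x n, bw A n x.1 ↔ n ≤ r x) (i j : ℕ) :
    #{x | i ≤ r x ∧ r x ≤ j} = NC A (fun x => Te A x ∧ bw A i x ∧ ¬ bw A (j + 1) x) := by
  rw [NC_term hA (fun x hx => hx.1)]
  apply le_antisymm
  · refine mk_le_of_injective (f := fun x => ⟨x.1.1, x.1.2.1, (hr _ _).2 x.2.1, fun hc => ?_⟩) ?_
    · have h1 := (hr _ _).1 hc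
      have h2 := x.2.2
      omega
    · intro x y h
      have := congrArg Subtype.val h
      exact Subtype.ext (Subtype.ext this)
  · refine mk_le_of_injective (f := fun x => ⟨⟨x.1, x.2.1, fun hc => x.2.2.2 (hc _)⟩, ?_, ?_⟩) ?_
    · exact (hr ⟨x.1, x.2.1, fun hc => x.2.2.2 (hc _)⟩ i).1 x.2.2.1
    · by_contra hc
      exact x.2.2.2 ((hr ⟨x.1, x.2.1, fun hc => x.2.2.2 (hc _)⟩ (j + 1)).2 (by omega))
    · intro x y h
      have := congrArg (fun z => z.1.1) h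
      exact Subtype.ext this

theorem chains_match (hA : PInj A) (hB : PInj B) (r : {x // Te A x ∧ ¬ Bw A x} → ℕ)
    (hr : ∀ x n, bw A n x.1 ↔ n ≤ r x) (s : {x // Te B x ∧ ¬ Bw B x} → ℕ)
    (hs : ∀ x n, bw B n x.1 ↔ n ≤ s x)
    (hch : ∀ i j, 2 ≤ i → i ≤ j → NC A (fun x => Te A x ∧ bw A (i - 1) x ∧ ¬ bw A j x) ≤
      NC B (fun x => Te B x ∧ bw B (i - 1 - 1) x ∧ ¬ bw B (j + 1) x))
    (hch' : ∀ i j, 2 ≤ i → i ≤ j → NC B (fun x => Te B x ∧ bw B (i - 1) x ∧ ¬ bw B j x) ≤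
      NC A (fun x => Te A x ∧ bw A (i - 1 - 1) x ∧ ¬ bw A (j + 1) x)) :
    ∃ m : {x // Te A x ∧ ¬ Bw A x} → {x // Te B x ∧ ¬ Bw B x} → Prop,
      (∀ x y, m x y → r x - 1 ≤ s y ∧ s y ≤ r x + 1) ∧ (∀ x y y', m x y → m x y' → y = y') ∧
      (∀ x x' y, m x y → m x' y → x = x') ∧ (∀ x, 1 ≤ r x → ∃ y, m x y) ∧
      ∀ y, 1 ≤ s y → ∃ x, m x y := by
  classical
  obtain ⟨f, hf1, hf2⟩ := hall_side r s (by
    intro i j hi hij
    rw [card_rank hA r hr, card_rank hB s hs]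
    exact hch (i + 1) (j + 1) (by omega) (by omega))
  obtain ⟨g, hg1, hg2⟩ := hall_side s r (by
    intro i j hi hij
    rw [card_rank hB s hs, card_rank hA r hr]
    exact hch' (i + 1) (j + 1) (by omega) (by omega))
  by_cases hne : Nonempty {x // Te A x ∧ ¬ Bw A x} ∧ Nonempty {x // Te B x ∧ ¬ Bw B x}
  · obtain ⟨⟨p0⟩, ⟨q0⟩⟩ := hne
    obtain ⟨m, h1, h2, h3, h4, h5⟩ := mendelsohn_dulmage
      (fun x y => r x - 1 ≤ s y ∧ s y ≤ r x + 1) {x | 1 ≤ r x} {y | 1 ≤ s y}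
      (fun x => (f x).getD q0) (fun y => (g y).getD p0)
      (by
        intro x hx x' hx' h
        obtain ⟨y, hy, _⟩ := hf1 x hx
        obtain ⟨y', hy', _⟩ := hf1 x' hx'
        simp only [hy, hy', Option.getD_some] at h
        subst h
        exact hf2 _ _ _ hy hy')
      (by
        intro x hx
        obtain ⟨y, hy, h⟩ := hf1 x hx
        simp only [hy, Option.getD_some]
        exact h)
      (by
        intro x hx x' hx' h
        obtain ⟨y, hy, _⟩ := hg1 x hx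
        obtain ⟨y', hy', _⟩ := hg1 x' hx'
        simp only [hy, hy', Option.getD_some] at h
        subst h
        exact hg2 _ _ _ hy hy')
      (by
        intro y hy
        obtain ⟨x, hx, h⟩ := hg1 y hy
        simp only [hx, Option.getD_some]
        omega)
    exact ⟨m, h1, h2, h3, h4, h5⟩
  · refine ⟨fun _ _ => False, fun _ _ h => h.elim, fun _ _ _ h => h.elim, fun _ _ _ h => h.elim,
      fun x hx => ?_, fun y hy => ?_⟩
    · obtain ⟨y, _⟩ := hf1 x hx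
      exact absurd ⟨⟨x⟩, ⟨y⟩⟩ hne
    · obtain ⟨x, _⟩ := hg1 y hy
      exact absurd ⟨⟨x⟩, ⟨y⟩⟩ hne

theorem p_suff (hA : PInj A) (hB : PInj B)
    (hcyc : ∀ k, 0 < k → NC A (Cy A k) = NC B (Cy B k))
    (hd : NC A (fun x => Fw A x ∧ Bw A x ∧ Ap A x) = NC B (fun x => Fw B x ∧ Bw B x ∧ Ap B x))
    (hrr : NC A (fun x => Fw A x ∧ In A x) = NC B (fun x => Fw B x ∧ In B x))
    (hl : NC A (fun x => Te A x ∧ Bw A x) = NC B (fun x => Te B x ∧ Bw B x))
    (hch : ∀ i j, 2 ≤ i → i ≤ j → NC A (fun x => Te A x ∧ bw A (i - 1) x ∧ ¬ bw A j x) ≤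
      NC B (fun x => Te B x ∧ bw B (i - 1 - 1) x ∧ ¬ bw B (j + 1) x))
    (hch' : ∀ i j, 2 ≤ i → i ≤ j → NC B (fun x => Te B x ∧ bw B (i - 1) x ∧ ¬ bw B j x) ≤
      NC A (fun x => Te A x ∧ bw A (i - 1 - 1) x ∧ ¬ bw A (j + 1) x)) :
    ∃ U : X → X → Prop, PInj U ∧ Int A B U ∧ (∀ z z', A z z' → ∃ w, U z w) ∧
      (∀ w w', B w w' → ∃ z, U z w') := by
  classical
  have hcyc' : ∀ k, ∃ F : X → X → Prop, (∀ x y, F x y → Cy A k x ∧ Cy B k y) ∧
      (∀ x y x' y', F x y → F x' y' → conn A x x' → x = x' ∧ y = y') ∧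
      (∀ x y x' y', F x y → F x' y' → conn B y y' → x = x' ∧ y = y') ∧
      (∀ z, Cy A k z → ∃ x y, F x y ∧ conn A x z) ∧
      (∀ w, Cy B k w → ∃ x y, F x y ∧ conn B y w) := by
    intro k
    by_cases hk : 0 < k
    · exact fam_eq hA hB (hcyc k hk)
    · exact ⟨fun _ _ => False, fun _ _ h => h.elim, fun _ _ _ _ h => h.elim,
        fun _ _ _ _ h => h.elim, fun z hz => absurd hz.1 hk, fun z hz => absurd hz.1 hk⟩
  choose Fc hc1 hc2 hc3 hc4 hc5 using hcyc'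
  obtain ⟨Fa, ha1, ha2, ha3, ha4, ha5⟩ := fam_eq hA hB hd
  obtain ⟨Fb, hb1, hb2, hb3, hb4, hb5⟩ := fam_eq hA hB hrr
  obtain ⟨Fl, hl1, hl2, hl3, hl4, hl5⟩ := fam_eq hA hB hl
  -- finite chains
  have hrk : ∀ x : {x // Te A x ∧ ¬ Bw A x}, ∃ r, ∀ n, bw A n x.1 ↔ n ≤ r :=
    fun x => exists_rank x.2.2
  have hsk : ∀ x : {x // Te B x ∧ ¬ Bw B x}, ∃ r, ∀ n, bw B n x.1 ↔ n ≤ r :=
    fun x => exists_rank x.2.2
  choose r hr using hrk
  choose s hs using hsk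
  obtain ⟨m, hm1, hm2, hm3, hm4, hm5⟩ := chains_match hA hB r hr s hs hch hch'
  let Fd : X → X → Prop := fun x' y' => ∃ x y, m x y ∧ y' = y.1 ∧
    ((r x ≤ s y ∧ x' = x.1) ∨ (r x = s y + 1 ∧ A x' x.1))
  have hdc : ∀ x' x : X, (x' = x ∨ A x' x) → conn A x' x := by
    rintro x' x (rfl | h)
    · exact conn_refl _
    · exact ⟨1, Or.inl ⟨x, h, rfl⟩⟩
  have hTF : ∀ {C : X → X → Prop} {x : X}, Te C x → ¬ Fw C x := by
    intro C x h hc
    obtain ⟨z, hz⟩ := Fw_dom hc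
    exact h z hz
  have hd1 : ∀ x' y', Fd x' y' → K2 A .d x' ∧ K2 B .d y' := by
    rintro x' y' ⟨x, y, h1, rfl, h2⟩
    have h3 : conn A x.1 x' := conn_symm (hdc x' x.1 (h2.imp (fun h => h.2) (fun h => h.2)))
    exact ⟨K2_conn hA .d _ _ h3 ⟨hTF x.2.1, x.2.2⟩, ⟨hTF y.2.1, y.2.2⟩⟩
  have hd2 : ∀ x y x' y', Fd x y → Fd x' y' → conn A x x' → x = x' ∧ y = y' := by
    rintro x y x' y' ⟨a, b, h1, rfl, h2⟩ ⟨a', b', h1', rfl, h2'⟩ h3
    have c1 := hdc x a.1 (h2.imp (fun h => h.2) (fun h => h.2))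
    have c2 := hdc x' a'.1 (h2'.imp (fun h => h.2) (fun h => h.2))
    have e1 : a.1 = a'.1 := term_unique hA a.2.1 a'.2.1
      (conn_trans hA (conn_symm c1) (conn_trans hA h3 c2))
    have e2 : a = a' := Subtype.ext e1
    subst e2
    have e3 := hm2 _ _ _ h1 h1'
    subst e3
    refine ⟨?_, rfl⟩
    rcases h2 with ⟨h4, h5⟩ | ⟨h4, h5⟩ <;> rcases h2' with ⟨h6, h7⟩ | ⟨h6, h7⟩
    · rw [h5, h7]
    · omega
    · omega
    · exact hA.inj _ _ _ h5 h7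
  have hd3 : ∀ x y x' y', Fd x y → Fd x' y' → conn B y y' → x = x' ∧ y = y' := by
    intro x y x' y' hF hF' h3
    have hFF := hF
    have hFF' := hF'
    obtain ⟨a, b, h1, rfl, h2⟩ := hF
    obtain ⟨a', b', h1', rfl, h2'⟩ := hF'
    have e1 : b = b' := Subtype.ext (term_unique hB b.2.1 b'.2.1 h3)
    subst e1
    have e3 := hm3 _ _ _ h1 h1'
    subst e3
    refine hd2 _ _ _ _ hFF hFF' ?_
    exact conn_trans hA (hdc x a.1 (h2.imp (fun h => h.2) (fun h => h.2)))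
      (conn_symm (hdc x' a.1 (h2'.imp (fun h => h.2) (fun h => h.2))))
  -- backward steps of the predecessor
  have hpred : ∀ (x' x : X), A x' x → ∀ n, bw A n x' ↔ bw A (n + 1) x := by
    intro x' x h n
    constructor
    · rintro ⟨z, hz⟩
      exact ⟨z, (RI_snoc _ _ _).2 ⟨x', hz, h⟩⟩
    · rintro ⟨z, hz⟩
      obtain ⟨t, h1, h2⟩ := (RI_snoc _ _ _).1 hz
      rw [hA.inj _ _ _ h2 h] at h1
      exact ⟨z, h1⟩
  let F : Kd → X → X → Prop := fun i => match i with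
    | .cyc k => Fc k
    | .a => Fa
    | .b => Fb
    | .c => Fl
    | .d => Fd
  have hIB : ∀ {C : X → X → Prop} {x : X}, In C x → ¬ Bw C x := by
    intro C x h hc
    have := In_bw h (hc 1)
    omega
  have hF : ∀ i x y, F i x y → K2 A i x ∧ K2 B i y := by
    intro i x y h
    cases i with
    | cyc k => exact hc1 k x y h
    | a => exact ha1 x y h
    | b =>
      obtain ⟨h1, h2⟩ := hb1 x y h
      exact ⟨⟨h1.1, hIB h1.2⟩, ⟨h2.1, hIB h2.2⟩⟩
    | c =>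
      obtain ⟨h1, h2⟩ := hl1 x y h
      exact ⟨⟨hTF h1.1, h1.2⟩, ⟨hTF h2.1, h2.2⟩⟩
    | d => exact hd1 x y h
  obtain ⟨gA, gB⟩ := union_good (A := A) (B := B) F (K2 A) (K2 B) (K2_conn hA) (K2_conn hB)
    (K2_ex hA) (K2_ex hB) hF
    (by
      intro i
      cases i with
      | cyc k => exact hc2 k
      | a => exact ha2
      | b => exact hb2
      | c => exact hl2
      | d => exact hd2)
    (by
      intro i
      cases i with
      | cyc k => exact hc3 k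
      | a => exact ha3
      | b => exact hb3
      | c => exact hl3
      | d => exact hd3)
  have hM : GoodM A B (fun x y => ∃ i, F i x y) := by
    refine ⟨gA, gB, ?_, ?_, ?_⟩
    · rintro x y ⟨i, h⟩ n
      cases i with
      | cyc k => exact per_Cy hA hB (hc1 k x y h).1 (hc1 k x y h).2 n
      | a => exact per_Ap (ha1 x y h).1.2.2 (ha1 x y h).2.2.2 n
      | b => exact per_Ap (In_Ap (hb1 x y h).1.2) (In_Ap (hb1 x y h).2.2) n
      | c => exact per_Ap (Te_Ap (hl1 x y h).1.1) (Te_Ap (hl1 x y h).2.1) n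
      | d =>
        obtain ⟨a, b, h1, rfl, h2⟩ := h
        have c1 := hdc x a.1 (h2.imp (fun h => h.2) (fun h => h.2))
        exact per_Ap (Ap_conn hA (conn_symm c1) (Te_Ap a.2.1)) (Te_Ap b.2.1) n
    · rintro x y ⟨i, h⟩ n hn
      cases i with
      | cyc k => exact Cy_Bw (hc1 k x y h).2 n
      | a => exact (ha1 x y h).2.2.1 n
      | b =>
        have := In_bw (hb1 x y h).1.2 hn
        subst this
        exact ⟨y, rfl⟩
      | c => exact (hl1 x y h).2.2 n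
      | d =>
        obtain ⟨a, b, h1, rfl, h2 | h2⟩ := h
        · obtain ⟨h3, rfl⟩ := h2
          have := (hr a n).1 hn
          exact (hs b n).2 (by omega)
        · have h3 := (hr a (n + 1)).1 ((hpred x a.1 h2.2 n).1 hn)
          exact (hs b n).2 (by omega)
    · rintro x y ⟨i, h⟩ n hn
      cases i with
      | cyc k => exact Cy_Fw (hc1 k x y h).1 n
      | a => exact (ha1 x y h).1.1 n
      | b => exact (hb1 x y h).1.1 n
      | c =>
        have := Te_fw (hl1 x y h).2.1 hn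
        subst this
        exact ⟨x, rfl⟩
      | d =>
        obtain ⟨a, b, h1, rfl, h2⟩ := h
        have := Te_fw b.2.1 hn
        subst this
        exact ⟨x, rfl⟩
  have hp1 : ∀ x y, (∃ i, F i x y) → ∀ n, fw A (n + 1) x → fw B n y := by
    rintro x y ⟨i, h⟩ n hn
    cases i with
    | cyc k => exact Cy_Fw (hc1 k x y h).2 n
    | a => exact (ha1 x y h).2.1 n
    | b => exact (hb1 x y h).2.1 n
    | c => exact absurd (Te_fw (hl1 x y h).1.1 hn) (Nat.succ_ne_zero n)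
    | d =>
      obtain ⟨a, b, h1, rfl, h2 | h2⟩ := h
      · obtain ⟨h3, rfl⟩ := h2
        exact absurd (Te_fw a.2.1 hn) (Nat.succ_ne_zero n)
      · obtain ⟨z, t, h3, h4⟩ := hn
        rw [hA.fn _ _ _ h3 h2.2] at h4
        have := Te_fw a.2.1 ⟨z, h4⟩
        subst this
        exact ⟨b.1, rfl⟩
  have hp2 : ∀ x y, (∃ i, F i x y) → ∀ n, bw B (n + 1) y → bw A n x := by
    rintro x y ⟨i, h⟩ n hn
    cases i with
    | cyc k => exact Cy_Bw (hc1 k x y h).1 n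
    | a => exact (ha1 x y h).1.2.1 n
    | b => exact absurd (In_bw (hb1 x y h).2.2 hn) (Nat.succ_ne_zero n)
    | c => exact (hl1 x y h).1.2 n
    | d =>
      obtain ⟨a, b, h1, rfl, h2 | h2⟩ := h
      · obtain ⟨h3, rfl⟩ := h2
        have h4 := (hs b (n + 1)).1 hn
        have h5 := hm1 a b h1
        exact (hr a n).2 (by omega)
      · have h4 := (hs b (n + 1)).1 hn
        exact (hpred x a.1 h2.2 n).2 ((hr a (n + 1)).2 (by omega))
  have hcovA : ∀ z z', A z z' → ∃ x y, (∃ i, F i x y) ∧ conn A x z := by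
    intro z z' hz
    rcases Cy_or_Ap (A := A) z with ⟨k, hk⟩ | hap
    · obtain ⟨x, y, h1, h2⟩ := hc4 k z hk
      exact ⟨x, y, ⟨.cyc k, h1⟩, h2⟩
    · by_cases hfw : Fw A z
      · by_cases hbw : Bw A z
        · obtain ⟨x, y, h1, h2⟩ := ha4 z ⟨hfw, hbw, hap⟩
          exact ⟨x, y, ⟨.a, h1⟩, h2⟩
        · obtain ⟨t, ht1, ht2 | ht2⟩ := exists_pt (A := A) z
          · exact absurd (Bw_conn hA (conn_symm ht1) ht2) hbw
          · obtain ⟨x, y, h1, h2⟩ := hb4 t ⟨Fw_conn hA ht1 hfw, ht2⟩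
            exact ⟨x, y, ⟨.b, h1⟩, conn_trans hA h2 (conn_symm ht1)⟩
      · obtain ⟨n, t, ht1, ht2⟩ := exists_term z hfw
        have hct : conn A t z := ⟨n, Or.inr ht1⟩
        by_cases hbw : Bw A z
        · obtain ⟨x, y, h1, h2⟩ := hl4 t ⟨ht2, Bw_conn hA (conn_symm hct) hbw⟩
          exact ⟨x, y, ⟨.c, h1⟩, conn_trans hA h2 hct⟩
        · have hbt : ¬ Bw A t := fun hc => hbw (Bw_conn hA hct hc)
          have h1 : bw A 1 t := by
            cases n with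
            | zero =>
              have e : z = t := ht1
              subst e
              exact absurd hz (ht2 z')
            | succ n => exact bw_mono (n := n + 1) (by omega) ⟨z, ht1⟩
          obtain ⟨y, hy⟩ := hm4 ⟨t, ht2, hbt⟩ ((hr ⟨t, ht2, hbt⟩ 1).1 h1)
          have h5 := hm1 _ _ hy
          by_cases hle : r ⟨t, ht2, hbt⟩ ≤ s y
          · exact ⟨t, y.1, ⟨.d, ⟨t, ht2, hbt⟩, y, hy, rfl, Or.inl ⟨hle, rfl⟩⟩, hct⟩
          · obtain ⟨t', v, h6, h7⟩ := h1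
            have e : v = t := h7
            subst e
            refine ⟨t', y.1, ⟨.d, ⟨v, ht2, hbt⟩, y, hy, rfl, Or.inr ⟨by omega, h6⟩⟩, ?_⟩
            exact conn_trans hA ⟨1, Or.inl ⟨v, h6, rfl⟩⟩ hct
  have hcovB : ∀ w w', B w w' → ∃ x y, (∃ i, F i x y) ∧ conn B y w' := by
    intro w w' hw
    rcases Cy_or_Ap (A := B) w' with ⟨k, hk⟩ | hap
    · obtain ⟨x, y, h1, h2⟩ := hc5 k w' hk
      exact ⟨x, y, ⟨.cyc k, h1⟩, h2⟩
    · by_cases hfw : Fw B w'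
      · by_cases hbw : Bw B w'
        · obtain ⟨x, y, h1, h2⟩ := ha5 w' ⟨hfw, hbw, hap⟩
          exact ⟨x, y, ⟨.a, h1⟩, h2⟩
        · obtain ⟨t, ht1, ht2 | ht2⟩ := exists_pt (A := B) w'
          · exact absurd (Bw_conn hB (conn_symm ht1) ht2) hbw
          · obtain ⟨x, y, h1, h2⟩ := hb5 t ⟨Fw_conn hB ht1 hfw, ht2⟩
            exact ⟨x, y, ⟨.b, h1⟩, conn_trans hB h2 (conn_symm ht1)⟩
      · obtain ⟨n, t, ht1, ht2⟩ := exists_term w' hfw
        have hct : conn B t w' := ⟨n, Or.inr ht1⟩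
        by_cases hbw : Bw B w'
        · obtain ⟨x, y, h1, h2⟩ := hl5 t ⟨ht2, Bw_conn hB (conn_symm hct) hbw⟩
          exact ⟨x, y, ⟨.c, h1⟩, conn_trans hB h2 hct⟩
        · have hbt : ¬ Bw B t := fun hc => hbw (Bw_conn hB hct hc)
          have h1 : bw B 1 t :=
            bw_mono (n := n + 1) (by omega) ⟨w, w', hw, ht1⟩
          obtain ⟨x, hx⟩ := hm5 ⟨t, ht2, hbt⟩ ((hs ⟨t, ht2, hbt⟩ 1).1 h1)
          have h5 := hm1 _ _ hx
          by_cases hle : r x ≤ s ⟨t, ht2, hbt⟩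
          · exact ⟨x.1, t, ⟨.d, x, ⟨t, ht2, hbt⟩, hx, rfl, Or.inl ⟨hle, rfl⟩⟩, hct⟩
          · have h6 : bw A 1 x.1 := (hr x 1).2 (by omega)
            obtain ⟨t', v, h6, h7⟩ := h6
            have e : v = x.1 := h7
            subst e
            exact ⟨t', t, ⟨.d, x, ⟨t, ht2, hbt⟩, hx, rfl, Or.inr ⟨by omega, h6⟩⟩, hct⟩
  refine ⟨Glue A B (fun x y => ∃ i, F i x y), hM.pinj hA hB, ⟨glue_inter hA hB hM⟩, ?_, ?_⟩
  · intro z z' hz
    obtain ⟨x, y, h1, n, h2 | h2⟩ := hcovA z z' hz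
    · obtain ⟨w, hw⟩ := hp1 x y h1 n ⟨z', (RI_snoc _ _ _).2 ⟨z, h2, hz⟩⟩
      exact ⟨w, x, y, h1, n, Or.inl ⟨h2, hw⟩⟩
    · obtain ⟨w, hw⟩ := hM.bwd x y h1 n ⟨z, h2⟩
      exact ⟨w, x, y, h1, n, Or.inr ⟨h2, hw⟩⟩
  · intro w w' hw
    obtain ⟨x, y, h1, n, h2 | h2⟩ := hcovB w w' hw
    · obtain ⟨z, hz⟩ := hM.fwd x y h1 n ⟨w', h2⟩
      exact ⟨z, x, y, h1, n, Or.inl ⟨hz, h2⟩⟩
    · obtain ⟨z, hz⟩ := hp2 x y h1 n ⟨w, w', hw, h2⟩
      exact ⟨z, x, y, h1, n, Or.inr ⟨hz, h2⟩⟩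

end Pool.Agent.X172.IX
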